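import Pool.Agent.Lib_MP_f22ace_co.Defs

set_option autoImplicit false

namespace Pool.Agent.MP_f22ace_co

open Set

variable {d k : ℕ}

lemma IsPolytope.convex {P : Set (Fin d → ℝ)} (h : IsPolytope P) : Convex ℝ P := by
  obtain ⟨A, -, rfl⟩ := h
  exact convex_convexHull ℝ A

lemma IsPolytope.isCompact {P : Set (Fin d → ℝ)} (h : IsPolytope P) : IsCompact P := by
  obtain ⟨A, hA, rfl⟩ := h
  exact hA.isCompact_convexHull ℝ

lemma vertexSet_subset (P : Set (Fin d → ℝ)) : vertexSet P ⊆ P := extremePoints_subset

lemma vertexSet_convexHull_subset (A : Set (Fin d → ℝ)) :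
    vertexSet (convexHull ℝ A) ⊆ A := extremePoints_convexHull_subset

lemma IsPolytope.finite_vertexSet {P : Set (Fin d → ℝ)} (h : IsPolytope P) :
    (vertexSet P).Finite := by
  obtain ⟨A, hA, rfl⟩ := h
  exact hA.subset (vertexSet_convexHull_subset A)

lemma IsPolytope.convexHull_vertexSet {P : Set (Fin d → ℝ)} (h : IsPolytope P) :
    convexHull ℝ (vertexSet P) = P := by
  have h1 := closure_convexHull_extremePoints h.isCompact h.convex
  have h2 : IsClosed (convexHull ℝ (vertexSet P)) := h.finite_vertexSet.isClosed_convexHull ℝ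
  rw [vertexSet] at *
  rwa [h2.closure_eq] at h1

lemma IsPolytope.ext {P Q : Set (Fin d → ℝ)} (hP : IsPolytope P) (hQ : IsPolytope Q)
    (h : vertexSet P = vertexSet Q) : P = Q := by
  rw [← hP.convexHull_vertexSet, ← hQ.convexHull_vertexSet, h]

lemma isPolytope_convexHull {A : Set (Fin d → ℝ)} (hA : A.Finite) :
    IsPolytope (convexHull ℝ A) := ⟨A, hA, rfl⟩

/-- A convexly independent finite set is the vertex set of its hull. -/
lemma vertexSet_convexHull_eq {A : Set (Fin d → ℝ)} (hA : A.Finite)
    (h : ∀ x ∈ A, x ∉ convexHull ℝ (A \ {x})) : vertexSet (convexHull ℝ A) = A := by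
  apply Subset.antisymm (vertexSet_convexHull_subset A)
  intro x hx
  by_contra hxv
  apply h x hx
  have h1 : x ∈ convexHull ℝ A := subset_convexHull ℝ A hx
  rw [← (isPolytope_convexHull hA).convexHull_vertexSet] at h1
  refine convexHull_mono ?_ h1
  intro y hy
  refine ⟨vertexSet_convexHull_subset A hy, ?_⟩
  rintro rfl
  exact hxv hy

lemma notMem_convexHull_of_mem_vertexSet {P : Set (Fin d → ℝ)} (hP : Convex ℝ P)
    {x : Fin d → ℝ} (hx : x ∈ vertexSet P) : x ∉ convexHull ℝ (vertexSet P \ {x}) := by
  have := hP.convexIndependent_extremePoints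
  rw [convexIndependent_set_iff_notMem_convexHull_sdiff] at this
  exact this x hx

/-- Any set of vertices of a polytope is the vertex set of its hull. -/
lemma vertexSet_convexHull_of_subset {P B : Set (Fin d → ℝ)} (hP : IsPolytope P)
    (hB : B ⊆ vertexSet P) : vertexSet (convexHull ℝ B) = B := by
  refine vertexSet_convexHull_eq (hP.finite_vertexSet.subset hB) ?_
  intro x hx h
  exact notMem_convexHull_of_mem_vertexSet hP.convex (hB hx)
    (convexHull_mono (sdiff_subset_sdiff_left hB) h)

lemma affineSpan_vertexSet {P : Set (Fin d → ℝ)} (hP : IsPolytope P) :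
    affineSpan ℝ (vertexSet P) = affineSpan ℝ P := by
  conv_rhs => rw [← hP.convexHull_vertexSet, affineSpan_convexHull]

/-- The convex hull of a finite, affinely spanning set of lattice points of the cube. -/
lemma isLatticePolytope_convexHull {A : Set (Fin d → ℝ)} (hA : A.Finite)
    (hL : ∀ x ∈ A, IsLatticePoint x) (hS : affineSpan ℝ A = ⊤) :
    IsLatticePolytope (convexHull ℝ A) :=
  ⟨isPolytope_convexHull hA, fun v hv => hL v (vertexSet_convexHull_subset A hv), by
    rw [affineSpan_convexHull, hS]⟩

lemma box_convex : Convex ℝ (Set.Icc (0 : Fin d → ℝ) (fun _ => (k : ℝ))) := convex_Icc _ _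

/-- Lattice points of the cube, as a finite type. -/
def latPt (d k : ℕ) (z : Fin d → Fin (k + 1)) : Fin d → ℝ := fun i => ((z i : ℕ) : ℝ)

lemma latPt_injective : Function.Injective (latPt d k) := by
  intro z w h
  funext i
  have := congrFun h i
  simp only [latPt] at this
  exact Fin.ext (by exact_mod_cast this)

lemma exists_latPt {x : Fin d → ℝ} (hx : IsLatticePoint x)
    (hb : x ∈ Set.Icc (0 : Fin d → ℝ) (fun _ => (k : ℝ))) : ∃ z, latPt d k z = x := by
  choose z hz using hx
  have h0 : ∀ i, 0 ≤ z i := fun i => by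
    have := hb.1 i
    simp only [Pi.zero_apply] at this
    rw [hz i] at this
    exact_mod_cast this
  have h1 : ∀ i, z i ≤ k := fun i => by
    have := hb.2 i
    simp only at this
    rw [hz i] at this
    exact_mod_cast this
  refine ⟨fun i => ⟨(z i).toNat, ?_⟩, ?_⟩
  · have := h0 i
    have := h1 i
    omega
  · funext i
    simp only [latPt]
    rw [hz i]
    have := h0 i
    have h2 : (((z i).toNat : ℤ) : ℝ) = ((z i : ℤ) : ℝ) := by
      rw [Int.toNat_of_nonneg this]
    exact_mod_cast h2

open Classical in
/-- The vertex set of a lattice polytope in the cube, as a finset. -/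
noncomputable def code (P : LatticePolytope d k) : Finset (Fin d → Fin (k + 1)) :=
  Finset.univ.filter (fun z => latPt d k z ∈ vertexSet P.1)

lemma image_code (P : LatticePolytope d k) :
    latPt d k '' (code P : Set (Fin d → Fin (k + 1))) = vertexSet P.1 := by
  ext x
  constructor
  · rintro ⟨z, hz, rfl⟩
    simpa [code] using hz
  · intro hx
    obtain ⟨z, hz⟩ := exists_latPt (P.2.1.2.1 x hx) (P.2.2 (vertexSet_subset _ hx))
    refine ⟨z, ?_, hz⟩
    simp only [code, Finset.coe_filter, Finset.mem_univ, true_and, Set.mem_ofPred_eq]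
    rwa [hz]

lemma code_injective : Function.Injective (code (d := d) (k := k)) := by
  intro P Q h
  apply Subtype.ext
  apply IsPolytope.ext P.2.1.1 Q.2.1.1
  rw [← image_code, ← image_code, h]

instance : Finite (LatticePolytope d k) := Finite.of_injective _ code_injective

noncomputable instance : Fintype (LatticePolytope d k) := Fintype.ofFinite _

end Pool.Agent.MP_f22ace_co
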