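import Mathlib

set_option autoImplicit false

namespace Pool.Agent.MP_f22ace_co

/-- The key inequality: a repeated edge vector contradicts strict concavity. -/
lemma chain_contra {a b c e : ℤ} (hb : 0 < b) (hc : 0 < c) (ha : 0 < a) (he : 0 < e)
    {α β α' β' : ℝ} (hα : 0 ≤ α) (hβ : 0 ≤ β) (hα' : 0 ≤ α') (hβ' : 0 ≤ β')
    (h1 : β * b < α * a) (h2 : α * c < β * e)
    (h3 : α' * a < β' * b) (h4 : β' * e < α' * c) : False := by
  have ha' : (0 : ℝ) < a := by exact_mod_cast ha
  have hb' : (0 : ℝ) < b := by exact_mod_cast hb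
  have hc' : (0 : ℝ) < c := by exact_mod_cast hc
  have he' : (0 : ℝ) < e := by exact_mod_cast he
  have k1 : (β * b) * (α * c) < (α * a) * (β * e) := by
    have p1 : 0 ≤ β * b := mul_nonneg hβ hb'.le
    have p2 : 0 ≤ α * c := mul_nonneg hα hc'.le
    exact mul_lt_mul'' h1 h2 p1 p2
  have k2 : (α' * a) * (β' * e) < (β' * b) * (α' * c) := by
    have p1 : 0 ≤ α' * a := mul_nonneg hα' ha'.le
    have p2 : 0 ≤ β' * e := mul_nonneg hβ' he'.le
    exact mul_lt_mul'' h3 h4 p1 p2
  have m1 : (b * c : ℝ) < a * e := by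
    have hαβ : 0 ≤ α * β := mul_nonneg hα hβ
    by_contra hcon
    push Not at hcon
    have := mul_le_mul_of_nonneg_left hcon hαβ
    nlinarith
  have m2 : (a * e : ℝ) < b * c := by
    have hαβ : 0 ≤ α' * β' := mul_nonneg hα' hβ'
    by_contra hcon
    push Not at hcon
    have := mul_le_mul_of_nonneg_left hcon hαβ
    nlinarith
  linarith

lemma chain_card (W : Finset (ℤ × ℤ)) (a b : ℤ) (k G : ℕ) (hG : 1 ≤ G)
    (hW1 : ∀ v ∈ W, a ≤ v.1 ∧ v.1 ≤ a + k) (hW2 : ∀ v ∈ W, b ≤ v.2 ∧ v.2 ≤ b + k)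
    (hf : ∀ v ∈ W, ∃ α β : ℝ, 0 ≤ α ∧ 0 ≤ β ∧ ∀ w ∈ W, w ≠ v →
      α * w.1 + β * w.2 < α * v.1 + β * v.2) :
    W.card ≤ G * G + 2 * (k / G) + 1 := by
  classical
  have hinj : Set.InjOn Prod.fst (W : Set (ℤ × ℤ)) := by
    intro v hv w hw hvw
    by_contra hne
    obtain ⟨α, β, hα, hβ, h1⟩ := hf v hv
    obtain ⟨α', β', hα', hβ', h2⟩ := hf w hw
    have e1 := h1 w hw (Ne.symm hne)
    have e2 := h2 v hv hne
    rw [hvw] at e1 e2
    have hv2 : v.2 ≠ w.2 := fun h => hne (Prod.ext hvw h)
    rcases lt_or_gt_of_ne hv2 with h | h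
    · have : (v.2 : ℝ) < w.2 := by exact_mod_cast h
      nlinarith
    · have : (w.2 : ℝ) < v.2 := by exact_mod_cast h
      nlinarith
  let X := W.image Prod.fst
  have hX : X.card = W.card := Finset.card_image_of_injOn hinj
  let e := X.orderEmbOfFin hX
  have hex : ∀ i, ∃ v ∈ W, v.1 = e i := by
    intro i
    have := X.orderEmbOfFin_mem hX i
    rw [Finset.mem_image] at this
    exact this
  choose v hvW hve using hex
  let u : ℕ → ℤ × ℤ := fun i => if h : i < W.card then v ⟨i, h⟩ else 0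
  have huW : ∀ i, i < W.card → u i ∈ W := by
    intro i hi
    simp only [u, dif_pos hi]
    exact hvW _
  have hu1 : ∀ i j, i < j → j < W.card → (u i).1 < (u j).1 := by
    intro i j hij hj
    simp only [u, dif_pos hj, dif_pos (hij.trans hj), hve]
    exact e.strictMono hij
  have hu2 : ∀ i j, i < j → j < W.card → (u j).2 < (u i).2 := by
    intro i j hij hj
    obtain ⟨α, β, hα, hβ, h1⟩ := hf (u i) (huW i (hij.trans hj))
    have h2 := hu1 i j hij hj
    have h3 := h1 (u j) (huW j hj) (fun hh => by rw [hh] at h2; exact lt_irrefl _ h2)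
    by_contra hcon
    push Not at hcon
    have h4 : ((u i).1 : ℝ) < (u j).1 := by exact_mod_cast h2
    have h5 : ((u i).2 : ℝ) ≤ (u j).2 := by exact_mod_cast hcon
    nlinarith
  have hne : ∀ i j, i < W.card → j < W.card → i ≠ j → u i ≠ u j := by
    intro i j hi hj hij hh
    rcases lt_or_gt_of_ne hij with h | h
    · have := hu1 i j h hj
      rw [hh] at this
      exact lt_irrefl _ this
    · have := hu1 j i h hi
      rw [hh] at this
      exact lt_irrefl _ this
  let Δ : ℕ → ℤ × ℤ := fun i => ((u (i + 1)).1 - (u i).1, (u i).2 - (u (i + 1)).2)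
  have hΔ : ∀ i j, i < j → j + 1 < W.card → Δ i ≠ Δ j := by
    intro i j hij hj hh
    have hh1 : (u (i + 1)).1 - (u i).1 = (u (j + 1)).1 - (u j).1 := congrArg Prod.fst hh
    have hh2 : (u i).2 - (u (i + 1)).2 = (u j).2 - (u (j + 1)).2 := congrArg Prod.snd hh
    have r1 : ((u (i + 1)).1 : ℝ) - (u i).1 = (u (j + 1)).1 - (u j).1 := by exact_mod_cast hh1
    have r2 : ((u i).2 : ℝ) - (u (i + 1)).2 = (u j).2 - (u (j + 1)).2 := by exact_mod_cast hh2
    rcases eq_or_lt_of_le (Nat.succ_le_of_lt hij) with h | h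
    · -- adjacent edges
      have h' : i + 1 = j := h
      rw [h'] at r1 r2
      obtain ⟨α, β, hα, hβ, h1⟩ := hf (u j) (huW j (by omega))
      have f1 := h1 (u i) (huW i (by omega)) (hne i j (by omega) (by omega) (by omega))
      have f2 := h1 (u (j + 1)) (huW (j + 1) hj) (hne (j + 1) j (by omega) (by omega) (by omega))
      have r3 : ((u j).1 : ℝ) * 2 = (u (j + 1)).1 + (u i).1 := by linarith
      have r4 : ((u j).2 : ℝ) * 2 = (u (j + 1)).2 + (u i).2 := by linarith
      have : α * ((u j).1 * 2) + β * ((u j).2 * 2) =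
        α * ((u (j + 1)).1 + (u i).1) + β * ((u (j + 1)).2 + (u i).2) := by rw [r3, r4]
      linarith
    · have h' : i + 1 < j := h
      obtain ⟨α, β, hα, hβ, h1⟩ := hf (u (i + 1)) (huW (i + 1) (by omega))
      obtain ⟨α', β', hα', hβ', h2⟩ := hf (u j) (huW j (by omega))
      have f1 := h1 (u i) (huW i (by omega)) (hne _ _ (by omega) (by omega) (by omega))
      have f2 := h1 (u j) (huW j (by omega)) (hne _ _ (by omega) (by omega) (by omega))
      have g1 := h2 (u (j + 1)) (huW _ (by omega)) (hne _ _ (by omega) (by omega) (by omega))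
      have g2 := h2 (u (i + 1)) (huW _ (by omega)) (hne _ _ (by omega) (by omega) (by omega))
      have p1 := hu1 i (i + 1) (by omega) (by omega)
      have p2 := hu2 i (i + 1) (by omega) (by omega)
      have p3 := hu1 (i + 1) j h' (by omega)
      have p4 := hu2 (i + 1) j h' (by omega)
      apply chain_contra (a := (u (i + 1)).1 - (u i).1) (b := (u i).2 - (u (i + 1)).2)
        (c := (u j).1 - (u (i + 1)).1) (e := (u (i + 1)).2 - (u j).2)
        (by omega) (by omega) (by omega) (by omega) hα hβ hα' hβ'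
      · push_cast
        linarith
      · push_cast
        linarith
      · push_cast
        rw [r1, r2]
        linarith
      · push_cast
        linarith
  -- counting
  set N := W.card - 1 with hN
  have hΔinj : Set.InjOn Δ (Finset.range N : Set ℕ) := by
    intro i hi j hj hh
    simp only [Finset.coe_range, Set.mem_Iio] at hi hj
    by_contra hcon
    rcases lt_or_gt_of_ne hcon with h | h
    · exact hΔ i j h (by omega) hh
    · exact hΔ j i h (by omega) hh.symm
  have hΔpos1 : ∀ i ∈ Finset.range N, 1 ≤ (Δ i).1 := by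
    intro i hi
    rw [Finset.mem_range] at hi
    have := hu1 i (i + 1) (by omega) (by omega)
    simp only [Δ]
    omega
  have hΔpos2 : ∀ i ∈ Finset.range N, 1 ≤ (Δ i).2 := by
    intro i hi
    rw [Finset.mem_range] at hi
    have := hu2 i (i + 1) (by omega) (by omega)
    simp only [Δ]
    omega
  rcases Nat.eq_zero_or_pos W.card with hW0 | hWpos
  · omega
  have hsum1 : ∑ i ∈ Finset.range N, (Δ i).1 ≤ k := by
    simp only [Δ]
    rw [Finset.sum_range_sub (fun i => (u i).1)]
    have q1 := hW1 _ (huW N (by omega))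
    have q2 := hW1 _ (huW 0 hWpos)
    omega
  have hsum2 : ∑ i ∈ Finset.range N, (Δ i).2 ≤ k := by
    simp only [Δ]
    rw [Finset.sum_range_sub' (fun i => (u i).2)]
    have q1 := hW2 _ (huW N (by omega))
    have q2 := hW2 _ (huW 0 hWpos)
    omega
  have hbig : ∀ g : ℕ → ℤ, (∀ i ∈ Finset.range N, 1 ≤ g i) → ∑ i ∈ Finset.range N, g i ≤ k →
      ((Finset.range N).filter (fun i => (G : ℤ) < g i)).card ≤ k / G := by
    intro g hg hs
    rw [Nat.le_div_iff_mul_le (by omega)]
    have h1 : ∑ i ∈ (Finset.range N).filter (fun i => (G : ℤ) < g i), (G : ℤ) ≤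
        ∑ i ∈ (Finset.range N).filter (fun i => (G : ℤ) < g i), g i := by
      apply Finset.sum_le_sum
      intro i hi
      rw [Finset.mem_filter] at hi
      exact hi.2.le
    have h2 : ∑ i ∈ (Finset.range N).filter (fun i => (G : ℤ) < g i), g i ≤
        ∑ i ∈ Finset.range N, g i := by
      apply Finset.sum_le_sum_of_subset_of_nonneg (Finset.filter_subset _ _)
      intro i hi _
      have := hg i hi
      omega
    rw [Finset.sum_const, nsmul_eq_mul] at h1
    have h3 : (((Finset.range N).filter (fun i => (G : ℤ) < g i)).card : ℤ) * G ≤ k :=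
      (h1.trans h2).trans hs
    exact_mod_cast h3
  have hsmall : ((Finset.range N).filter (fun i => (Δ i).1 ≤ G ∧ (Δ i).2 ≤ G)).card ≤ G * G := by
    have h1 : ((Finset.Icc (1 : ℤ) G) ×ˢ (Finset.Icc (1 : ℤ) G)).card = G * G := by
      rw [Finset.card_product, Int.card_Icc]
      simp
    rw [← h1]
    apply Finset.card_le_card_of_injOn Δ
    · intro i hi
      rw [Finset.mem_coe, Finset.mem_filter] at hi
      rw [Finset.mem_coe, Finset.mem_product, Finset.mem_Icc, Finset.mem_Icc]
      exact ⟨⟨hΔpos1 i hi.1, hi.2.1⟩, ⟨hΔpos2 i hi.1, hi.2.2⟩⟩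
    · apply hΔinj.mono
      intro i hi
      rw [Finset.mem_coe, Finset.mem_filter] at hi
      exact hi.1
  have hcover : Finset.range N ⊆
      ((Finset.range N).filter (fun i => (Δ i).1 ≤ G ∧ (Δ i).2 ≤ G)) ∪
      (((Finset.range N).filter (fun i => (G : ℤ) < (Δ i).1)) ∪
      ((Finset.range N).filter (fun i => (G : ℤ) < (Δ i).2))) := by
    intro i hi
    simp only [Finset.mem_union, Finset.mem_filter, hi, true_and]
    by_cases h1 : (Δ i).1 ≤ G
    · by_cases h2 : (Δ i).2 ≤ G
      · exact Or.inl ⟨h1, h2⟩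
      · exact Or.inr (Or.inr (by omega))
    · exact Or.inr (Or.inl (by omega))
  have hc1 := Finset.card_le_card hcover
  rw [Finset.card_range] at hc1
  have hc2 := Finset.card_union_le
    ((Finset.range N).filter (fun i => (Δ i).1 ≤ G ∧ (Δ i).2 ≤ G))
    (((Finset.range N).filter (fun i => (G : ℤ) < (Δ i).1)) ∪
      ((Finset.range N).filter (fun i => (G : ℤ) < (Δ i).2)))
  have hc3 := Finset.card_union_le ((Finset.range N).filter (fun i => (G : ℤ) < (Δ i).1))
      ((Finset.range N).filter (fun i => (G : ℤ) < (Δ i).2))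
  have b1 := hbig (fun i => (Δ i).1) hΔpos1 hsum1
  have b2 := hbig (fun i => (Δ i).2) hΔpos2 hsum2
  omega

end Pool.Agent.MP_f22ace_co
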