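import Pool.Agent.Lib_MP_f22ace_co.Degree

set_option autoImplicit false

namespace Pool.Agent.MP_f22ace_co

open Set

/-- The number of subsets with at most `m` elements. -/
lemma card_small_finsets (α : Type) [Fintype α] [DecidableEq α] (m : ℕ) :
    (Finset.univ.filter (fun s : Finset α => s.card ≤ m)).card ≤ (Fintype.card α + 1) ^ m := by
  have h1 : Fintype.card (Fin m → Option α) = (Fintype.card α + 1) ^ m := by
    rw [Fintype.card_fun, Fintype.card_option, Fintype.card_fin]
  rw [← h1, ← Finset.card_univ]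
  apply Finset.card_le_card_of_surjOn (fun f => Finset.eraseNone (Finset.univ.image f))
  intro s hs
  simp only [Finset.coe_filter, Finset.mem_univ, true_and, Set.mem_ofPred_eq] at hs
  let e := s.equivFin
  refine ⟨fun i => if h : (i : ℕ) < s.card then some (e.symm ⟨i, h⟩ : α) else none, by simp, ?_⟩
  ext a
  simp only [Finset.mem_eraseNone, Finset.mem_image, Finset.mem_univ, true_and]
  constructor
  · rintro ⟨i, hi⟩
    split_ifs at hi with h
    simp only [Option.some.injEq] at hi
    rw [← hi]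
    exact (e.symm ⟨i, h⟩).2
  · intro ha
    refine ⟨⟨(e ⟨a, ha⟩ : ℕ), lt_of_lt_of_le (e ⟨a, ha⟩).2 hs⟩, ?_⟩
    simp

variable {d k : ℕ}

open Classical in
lemma card_few (d k m : ℕ) :
    (Finset.univ.filter (fun P : LatticePolytope d k => (code P).card ≤ m)).card ≤
      ((k + 1) ^ d + 1) ^ m := by
  have h := card_small_finsets (Fin d → Fin (k + 1)) m
  simp only [Fintype.card_fun, Fintype.card_fin] at h
  refine le_trans ?_ h
  apply Finset.card_le_card_of_injOn code
  · intro P hP
    simpa using hP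
  · exact code_injective.injOn

open Classical in
/-- The polytopes in the cube that contain the origin. -/
noncomputable def corner (d k : ℕ) : Finset (LatticePolytope d k) :=
  Finset.univ.filter (fun P => (0 : Fin d → ℝ) ∈ P.1)

lemma mem_corner {P : LatticePolytope d k} : P ∈ corner d k ↔ (0 : Fin d → ℝ) ∈ P.1 := by
  simp [corner]

lemma zero_mem_vertexSet {P : LatticePolytope d k} (h : (0 : Fin d → ℝ) ∈ P.1) :
    (0 : Fin d → ℝ) ∈ vertexSet P.1 := by
  refine mem_extremePoints.2 ⟨h, ?_⟩
  rintro x hx y hy ⟨a, b, ha, hb, hab, hxy⟩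
  have hx0 := (P.2.2 hx).1
  have hy0 := (P.2.2 hy).1
  constructor
  · funext i
    have h1 := congrFun hxy i
    simp only [Pi.add_apply, Pi.smul_apply, smul_eq_mul, Pi.zero_apply] at h1
    have h2 := hx0 i
    have h3 := hy0 i
    simp only [Pi.zero_apply] at h2 h3 ⊢
    nlinarith [mul_nonneg ha.le h2, mul_nonneg hb.le h3]
  · funext i
    have h1 := congrFun hxy i
    simp only [Pi.add_apply, Pi.smul_apply, smul_eq_mul, Pi.zero_apply] at h1
    have h2 := hx0 i
    have h3 := hy0 i
    simp only [Pi.zero_apply] at h2 h3 ⊢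
    nlinarith [mul_nonneg ha.le h2, mul_nonneg hb.le h3]

lemma IsInsertion.subset {P Q : Set (Fin d → ℝ)} (h : IsInsertion P Q) : P ⊆ Q := by
  obtain ⟨x, rfl, -⟩ := h
  exact (subset_insert _ _).trans (subset_convexHull ℝ _)

lemma corner_adj {P Q : LatticePolytope d k} (hP : (0 : Fin d → ℝ) ∈ P.1)
    (hQ : (0 : Fin d → ℝ) ∉ Q.1) (h : (Lam d k).Adj P Q) :
    vertexSet P.1 = insert 0 (vertexSet Q.1) := by
  obtain ⟨-, h | ⟨x, h1, h2⟩⟩ := h
  · exact absurd (h.subset hP) hQ
  · have h3 := zero_mem_vertexSet hP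
    rw [h2] at h3
    rcases h3 with h3 | h3
    · rw [h2, ← h3]
    · exact absurd (vertexSet_subset _ h3) hQ

lemma cut_corner_le (d k : ℕ) :
    cutSize (Lam d k) (corner d k) ≤ (corner d k).card := by
  classical
  unfold cutSize
  apply Finset.card_le_card_of_injOn Prod.fst
  · rintro ⟨P, Q⟩ h
    simp only [Finset.mem_coe, SimpleGraph.mk_mem_interedges_iff] at h
    exact h.1
  · rintro ⟨P, Q⟩ h ⟨P', Q'⟩ h' heq
    simp only [Finset.mem_coe, SimpleGraph.mk_mem_interedges_iff, Finset.mem_compl,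
      mem_corner] at h h' heq
    subst heq
    have e1 := corner_adj h.1 h.2.1 h.2.2
    have e2 := corner_adj h'.1 h'.2.1 h'.2.2
    have n1 : (0 : Fin d → ℝ) ∉ vertexSet Q.1 := fun hh => h.2.1 (vertexSet_subset _ hh)
    have n2 : (0 : Fin d → ℝ) ∉ vertexSet Q'.1 := fun hh => h'.2.1 (vertexSet_subset _ hh)
    have : Q = Q' := by
      apply Subtype.ext
      apply IsPolytope.ext Q.2.1.1 Q'.2.1.1
      have e3 : insert (0 : Fin d → ℝ) (vertexSet Q.1) \ {0} =
        insert (0 : Fin d → ℝ) (vertexSet Q'.1) \ {0} := by rw [← e1, ← e2]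
      rwa [insert_sdiff_self_of_notMem n1, insert_sdiff_self_of_notMem n2] at e3
    rw [this]

open Classical in
lemma cut_corner_le' (d k : ℕ) :
    cutSize (Lam d k) (corner d k) ≤ ((corner d k)ᶜ).card := by
  unfold cutSize
  apply Finset.card_le_card_of_injOn Prod.snd
  · rintro ⟨P, Q⟩ h
    simp only [Finset.mem_coe, SimpleGraph.mk_mem_interedges_iff] at h
    exact h.2.1
  · rintro ⟨P, Q⟩ h ⟨P', Q'⟩ h' heq
    simp only [Finset.mem_coe, SimpleGraph.mk_mem_interedges_iff, Finset.mem_compl,
      mem_corner] at h h' heq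
    subst heq
    have e1 := corner_adj h.1 h.2.1 h.2.2
    have e2 := corner_adj h'.1 h'.2.1 h'.2.2
    have : P = P' := by
      apply Subtype.ext
      apply IsPolytope.ext P.2.1.1 P'.2.1.1
      rw [e1, e2]
    rw [this]

open Classical in
lemma vol_ge (d k m : ℕ) (S : Finset (LatticePolytope d k))
    (hS : 2 * ((k + 1) ^ d + 1) ^ m ≤ S.card) :
    S.card * (m + 1 - (d + 1)) ≤ 2 * vol (Lam d k) S := by
  unfold vol
  have h1 : ∑ P ∈ S.filter (fun P => ¬ (code P).card ≤ m), (m + 1 - (d + 1)) ≤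
      ∑ P ∈ S, (Lam d k).degree P := by
    refine le_trans ?_ (Finset.sum_le_sum_of_subset (Finset.filter_subset
      (fun P => ¬ (code P).card ≤ m) S))
    apply Finset.sum_le_sum
    intro P hP
    rw [Finset.mem_filter] at hP
    have := ncard_vertexSet_le_degree P
    rw [ncard_vertexSet_eq_card_code] at this
    omega
  rw [Finset.sum_const, smul_eq_mul] at h1
  have h2 : (S.filter (fun P => (code P).card ≤ m)).card ≤ ((k + 1) ^ d + 1) ^ m := by
    refine le_trans (Finset.card_le_card ?_) (card_few d k m)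
    intro P hP
    simp only [Finset.mem_filter, Finset.mem_univ, true_and] at hP ⊢
    exact hP.2
  have h3 := Finset.card_filter_add_card_filter_not (s := S) (fun P => (code P).card ≤ m)
  have h4 : S.card ≤ 2 * (S.filter (fun P => ¬ (code P).card ≤ m)).card := by omega
  calc S.card * (m + 1 - (d + 1))
      ≤ (2 * (S.filter (fun P => ¬ (code P).card ≤ m)).card) * (m + 1 - (d + 1)) :=
        Nat.mul_le_mul_right _ h4
    _ = 2 * ((S.filter (fun P => ¬ (code P).card ≤ m)).card * (m + 1 - (d + 1))) := by ring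
    _ ≤ _ := Nat.mul_le_mul_left _ h1

end Pool.Agent.MP_f22ace_co
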