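import Pool.Agent.Lib_MP_f22ace_co.Families

set_option autoImplicit false

namespace Pool.Agent.MP_f22ace_co

open Set

variable {d k : ℕ}

open Classical in
lemma span_of_affineIndependent {ι : Type} [Fintype ι] (q : ι → (Fin d → Fin (k + 1)))
    (hι : Fintype.card ι = d + 1) (hq : AffineIndependent ℝ (fun i => latPt d k (q i))) :
    affineSpan ℝ (latPt d k '' ((Finset.univ.image q : Finset (Fin d → Fin (k + 1))) :
      Set (Fin d → Fin (k + 1)))) = ⊤ ∧ (Finset.univ.image q).card = d + 1 := by
  have hinj : Function.Injective q := by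
    intro i j hij
    apply hq.injective
    simp only [hij]
  constructor
  · have h1 : latPt d k '' ((Finset.univ.image q : Finset (Fin d → Fin (k + 1))) :
      Set (Fin d → Fin (k + 1))) = Set.range (fun i => latPt d k (q i)) := by
      rw [Finset.coe_image, Finset.coe_univ, image_univ, ← range_comp]
      rfl
    rw [h1, hq.affineSpan_eq_top_iff_card_eq_finrank_add_one, hι]
    simp
  · rw [Finset.card_image_of_injective _ hinj, Finset.card_univ, hι]

/-- 0/1 points. -/
def bPt (d : ℕ) {k : ℕ} (hk : 1 ≤ k) (b : Fin d → Bool) : Fin d → Fin (k + 1) :=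
  fun i => ⟨(b i).toNat, by cases b i <;> simp; omega⟩

lemma latPt_bPt (hk : 1 ≤ k) (b : Fin d → Bool) (i : Fin d) :
    latPt d k (bPt d hk b) i = if b i then 1 else 0 := by
  simp only [latPt, bPt]
  cases b i <;> simp

lemma bPt_injective (hk : 1 ≤ k) : Function.Injective (bPt d hk) := by
  intro b c h
  funext i
  have h1 := congrFun h i
  simp only [bPt, Fin.mk.injEq] at h1
  cases hb : b i <;> cases hc : c i <;> simp_all

open Classical in
lemma cube_independent (hk : 1 ≤ k) (z : Fin d → Fin (k + 1))
    (hz : z ∈ Finset.univ.image (bPt d hk)) : ∃ f : (Fin d → ℝ) →ₗ[ℝ] ℝ,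
      ∀ w ∈ Finset.univ.image (bPt d hk), w ≠ z →
      f (latPt d k z) < f (latPt d k w) := by
  simp only [Finset.mem_image, Finset.mem_univ, true_and] at hz
  obtain ⟨b, rfl⟩ := hz
  refine ⟨∑ i, (if b i then (-1 : ℝ) else 1) • LinearMap.proj i, ?_⟩
  intro w hw hwne
  simp only [Finset.mem_image, Finset.mem_univ, true_and] at hw
  obtain ⟨c, rfl⟩ := hw
  simp only [LinearMap.sum_apply, LinearMap.smul_apply, LinearMap.proj_apply, latPt_bPt,
    smul_eq_mul]
  have hne : ∃ i, c i ≠ b i := by
    by_contra hcon
    push Not at hcon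
    exact hwne (by rw [funext hcon])
  obtain ⟨i, hi⟩ := hne
  apply Finset.sum_lt_sum
  · intro j _
    cases b j <;> cases c j <;> simp
  · refine ⟨i, Finset.mem_univ _, ?_⟩
    cases hb : b i <;> cases hc : c i <;> simp_all

open Classical in
lemma cube_corner (hk : 1 ≤ k) :
    2 ^ (2 ^ d - (d + 1)) ≤ (corner d k).card := by
  let q : Option (Fin d) → (Fin d → Fin (k + 1)) := fun o =>
    bPt d hk (fun j => o.elim false (fun i => decide (i = j)))
  have hq : AffineIndependent ℝ (fun i => latPt d k (q i)) := by
    rw [affineIndependent_iff_of_fintype]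
    intro w hw hw2
    rw [Finset.weightedVSub_eq_linear_combination _ hw] at hw2
    have h1 : ∀ j, w (some j) = 0 := by
      intro j
      have := congrFun hw2 j
      simp only [Finset.sum_apply, Pi.smul_apply, smul_eq_mul, q, latPt_bPt, Pi.zero_apply,
        Fintype.sum_option, Option.elim] at this
      simpa using this
    rw [Fintype.sum_option] at hw
    simp only [h1, Finset.sum_const_zero, add_zero] at hw
    intro i
    cases i with
    | none => exact hw
    | some j => exact h1 j
  obtain ⟨h1, h2⟩ := span_of_affineIndependent q (by simp) hq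
  have h3 := corner_card_ge (Finset.univ.image (bPt d hk)) (Finset.univ.image q) (by
    intro z hz
    simp only [Finset.mem_image, Finset.mem_univ, true_and] at hz ⊢
    obtain ⟨o, rfl⟩ := hz
    exact ⟨_, rfl⟩) (cube_independent hk) h1 (by
    simp only [Finset.mem_image, Finset.mem_univ, true_and]
    refine ⟨none, ?_⟩
    funext i
    simp [q, bPt, zeroPt])
  rw [h2, Finset.card_image_of_injective _ (bPt_injective hk), Finset.card_univ] at h3
  simpa using h3

open Classical in
lemma cube_corner_compl (hd : 2 ≤ d) (hk : 1 ≤ k) :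
    2 ^ (2 ^ d - 1 - (d + 1)) ≤ ((corner d k)ᶜ).card := by
  let q : Option (Fin d) → (Fin d → Fin (k + 1)) := fun o =>
    bPt d hk (fun j => o.elim true (fun i => decide (i ≠ j)))
  have hq : AffineIndependent ℝ (fun i => latPt d k (q i)) := by
    rw [affineIndependent_iff_of_fintype]
    intro w hw hw2
    rw [Finset.weightedVSub_eq_linear_combination _ hw] at hw2
    rw [Fintype.sum_option] at hw
    have h1 : ∀ j, w (some j) = 0 := by
      intro j
      have := congrFun hw2 j
      simp only [Finset.sum_apply, Pi.smul_apply, smul_eq_mul, q, latPt_bPt, Pi.zero_apply,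
        Fintype.sum_option, Option.elim] at this
      simp only [ite_true, mul_one, decide_eq_true_eq, mul_ite, mul_zero, Finset.sum_ite,
        Finset.sum_const_zero, add_zero] at this
      have h2 : ∑ x, w (some x) = ∑ x with x ≠ j, w (some x) + w (some j) := by
        rw [← Finset.sum_filter_add_sum_filter_not Finset.univ (fun x => x ≠ j)]
        congr 1
        simp only [ne_eq, not_not]
        rw [Finset.sum_filter]
        simp
      linarith
    simp only [h1, Finset.sum_const_zero, add_zero] at hw
    intro i
    cases i with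
    | none => exact hw
    | some j => exact h1 j
  obtain ⟨h1, h2⟩ := span_of_affineIndependent q (by simp) hq
  have h3 := corner_compl_card_ge ((Finset.univ.image (bPt d hk)).erase (zeroPt d k))
    (Finset.univ.image q) (by
    intro z hz
    simp only [Finset.mem_image, Finset.mem_univ, true_and, Finset.mem_erase] at hz ⊢
    obtain ⟨o, rfl⟩ := hz
    refine ⟨?_, _, rfl⟩
    intro h
    cases o with
    | none =>
      have := congrFun h ⟨0, by omega⟩
      simp [q, bPt, zeroPt] at this
    | some i =>
      obtain ⟨j, hj⟩ : ∃ j : Fin d, i ≠ j := by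
        by_cases hi : i = ⟨0, by omega⟩
        · refine ⟨⟨1, by omega⟩, ?_⟩
          rw [hi]
          intro hh
          simp at hh
        · exact ⟨_, hi⟩
      have := congrFun h j
      simp [q, bPt, zeroPt, hj] at this) (by
    intro z hz
    obtain ⟨f, hf⟩ := cube_independent hk z (Finset.mem_of_mem_erase hz)
    exact ⟨f, fun w hw => hf w (Finset.mem_of_mem_erase hw)⟩) h1 (by simp)
  have h4 : zeroPt d k ∈ Finset.univ.image (bPt d hk) := by
    simp only [Finset.mem_image, Finset.mem_univ, true_and]
    refine ⟨fun _ => false, ?_⟩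
    funext i
    simp [bPt, zeroPt]
  rw [h2, Finset.card_erase_of_mem h4, Finset.card_image_of_injective _ (bPt_injective hk),
    Finset.card_univ] at h3
  simpa using h3

end Pool.Agent.MP_f22ace_co
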