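import Mathlib

/-!
# Elementary-move graphs on lattice polytopes: definitions

The graphs `Λ(d,k)` of David, Pournin and Rakotonarivo, and the two notions of expansion.
-/

set_option autoImplicit false

namespace Pool.Agent.MP_f22ace_co

/-- `P` is a polytope in `ℝ^d`: the convex hull of a finite set of points. -/
def IsPolytope {d : ℕ} (P : Set (Fin d → ℝ)) : Prop :=
  ∃ A : Set (Fin d → ℝ), A.Finite ∧ P = convexHull ℝ A

/-- The vertex set of `P`: its set of extreme points. -/
def vertexSet {d : ℕ} (P : Set (Fin d → ℝ)) : Set (Fin d → ℝ) :=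
  P.extremePoints ℝ

/-- `x` is a point of the lattice `ℤ^d`. -/
def IsLatticePoint {d : ℕ} (x : Fin d → ℝ) : Prop :=
  ∀ i, ∃ z : ℤ, x i = z

/-- `P` is a `d`-dimensional lattice polytope in `ℝ^d`: a polytope, all of whose vertices lie in
`ℤ^d`, and whose affine span is all of `ℝ^d`. -/
def IsLatticePolytope {d : ℕ} (P : Set (Fin d → ℝ)) : Prop :=
  IsPolytope P ∧ (∀ v ∈ vertexSet P, IsLatticePoint v) ∧ affineSpan ℝ P = ⊤

/-- `Q` is obtained from `P` by inserting a point `x` that can be inserted in `P`:
`Q = conv (P ∪ {x})` and the vertex set of `Q` is exactly the vertex set of `P` together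
with `x`. -/
def IsInsertion {d : ℕ} (P Q : Set (Fin d → ℝ)) : Prop :=
  ∃ x : Fin d → ℝ, Q = convexHull ℝ (insert x P) ∧ vertexSet Q = insert x (vertexSet P)

/-- The `d`-dimensional lattice polytopes contained in the cube `[0,k]^d`: the vertices of the
graph `Λ(d,k)`. -/
def LatticePolytope (d k : ℕ) : Type :=
  {P : Set (Fin d → ℝ) // IsLatticePolytope P ∧ P ⊆ Set.Icc 0 (fun _ => (k : ℝ))}

/-- The graph `Λ(d,k)`: two different `d`-dimensional lattice polytopes contained in `[0,k]^d` are
adjacent when one of them is obtained from the other by a single insertion move. -/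
def Lam (d k : ℕ) : SimpleGraph (LatticePolytope d k) where
  Adj P Q := P ≠ Q ∧ (IsInsertion P.1 Q.1 ∨ IsInsertion Q.1 P.1)
  symm := ⟨fun _ _ h => ⟨h.1.symm, h.2.symm⟩⟩
  loopless := ⟨fun _ h => h.1 rfl⟩

section expansion

variable {V : Type} [Fintype V]

open Classical in
/-- The number `|E(S, V \ S)|` of edges of `G` with one end in `S` and the other outside of `S`. -/
noncomputable def cutSize (G : SimpleGraph V) (S : Finset V) : ℕ :=
  (G.interedges S Sᶜ).card

open Classical in
/-- The volume `vol(S) = ∑_{v ∈ S} deg v`. -/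
noncomputable def vol (G : SimpleGraph V) (S : Finset V) : ℕ :=
  ∑ v ∈ S, G.degree v

end expansion

end Pool.Agent.MP_f22ace_co
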