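import Pool.Agent.Lib_MP_f22ace_co.Basic

set_option autoImplicit false

namespace Pool.Agent.MP_f22ace_co

open Set

variable {d k : ℕ}

/-- Deleting the vertex `v` from `P`. -/
noncomputable def delP (P : LatticePolytope d k) (v : Fin d → ℝ)
    (h : affineSpan ℝ (vertexSet P.1 \ {v}) = ⊤) : LatticePolytope d k :=
  ⟨convexHull ℝ (vertexSet P.1 \ {v}),
    isLatticePolytope_convexHull (P.2.1.1.finite_vertexSet.subset sdiff_subset)
      (fun x hx => P.2.1.2.1 x hx.1) h,
    (convexHull_min (sdiff_subset.trans (vertexSet_subset _)) P.2.1.1.convex).trans P.2.2⟩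

lemma vertexSet_delP (P : LatticePolytope d k) (v : Fin d → ℝ)
    (h : affineSpan ℝ (vertexSet P.1 \ {v}) = ⊤) :
    vertexSet (delP P v h).1 = vertexSet P.1 \ {v} :=
  vertexSet_convexHull_of_subset P.2.1.1 sdiff_subset

lemma adj_delP (P : LatticePolytope d k) (v : Fin d → ℝ) (hv : v ∈ vertexSet P.1)
    (h : affineSpan ℝ (vertexSet P.1 \ {v}) = ⊤) : (Lam d k).Adj P (delP P v h) := by
  refine ⟨?_, Or.inr ⟨v, ?_, ?_⟩⟩
  · intro heq
    have h1 := vertexSet_delP P v h
    rw [← heq] at h1
    rw [h1] at hv
    exact hv.2 rfl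
  · apply Subset.antisymm
    · conv_lhs => rw [← P.2.1.1.convexHull_vertexSet]
      apply convexHull_mono
      intro x hx
      by_cases hxv : x = v
      · exact Or.inl hxv
      · exact Or.inr (subset_convexHull ℝ _ ⟨hx, hxv⟩)
    · apply convexHull_min _ P.2.1.1.convex
      rw [insert_subset_iff]
      exact ⟨vertexSet_subset _ hv,
        convexHull_min (sdiff_subset.trans (vertexSet_subset _)) P.2.1.1.convex⟩
  · rw [vertexSet_delP, insert_sdiff_singleton, insert_eq_of_mem hv]

open Classical in
/-- Every vertex outside of an affine basis can be deleted. -/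
lemma ncard_vertexSet_le_degree (P : LatticePolytope d k) :
    (vertexSet P.1).ncard ≤ (Lam d k).degree P + (d + 1) := by
  have hfin := P.2.1.1.finite_vertexSet
  have hspan : affineSpan ℝ (vertexSet P.1) = ⊤ := by
    rw [affineSpan_vertexSet P.2.1.1, P.2.1.2.2]
  obtain ⟨t, htV, htspan, htind⟩ := exists_affineIndependent ℝ (Fin d → ℝ) (vertexSet P.1)
  rw [hspan] at htspan
  have htfin : t.Finite := hfin.subset htV
  have htcard : t.ncard ≤ d + 1 := by
    have := htfin.fintype
    have h1 : Fintype.card t ≤ _ := htind.card_le_finrank_succ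
    have h2 : Module.finrank ℝ (vectorSpan ℝ (Set.range ((↑) : t → (Fin d → ℝ)))) ≤ d := by
      refine (Submodule.finrank_le _).trans ?_
      simp
    rw [← Nat.card_coe_set_eq, Nat.card_eq_fintype_card]
    exact h1.trans (by omega)
  have hD : ∀ v ∈ vertexSet P.1 \ t, affineSpan ℝ (vertexSet P.1 \ {v}) = ⊤ := by
    intro v hv
    rw [eq_top_iff, ← htspan]
    apply affineSpan_mono
    intro x hx
    refine ⟨htV hx, ?_⟩
    rintro rfl
    exact hv.2 hx
  have hcard : (vertexSet P.1 \ t).ncard ≤ (Lam d k).degree P := by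
    rw [← SimpleGraph.card_neighborFinset_eq_degree, ← Set.ncard_coe_finset]
    let f : (Fin d → ℝ) → LatticePolytope d k := fun v =>
      if h : affineSpan ℝ (vertexSet P.1 \ {v}) = ⊤ then delP P v h else P
    apply Set.ncard_le_ncard_of_injOn f
    · intro v hv
      simp only [f, dif_pos (hD v hv)]
      simp only [SimpleGraph.coe_neighborFinset, SimpleGraph.mem_neighborSet]
      exact adj_delP P v hv.1 _
    · intro v hv w hw hvw
      simp only [f, dif_pos (hD v hv), dif_pos (hD w hw)] at hvw
      have h1 := vertexSet_delP P v (hD v hv)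
      rw [hvw, vertexSet_delP] at h1
      by_contra hne
      have : v ∈ vertexSet P.1 \ {w} := ⟨hv.1, hne⟩
      rw [h1] at this
      exact this.2 rfl
  have := Set.ncard_sdiff_add_ncard_of_subset htV hfin
  omega

lemma ncard_vertexSet_eq_card_code (P : LatticePolytope d k) :
    (vertexSet P.1).ncard = (code P).card := by
  rw [← image_code, Set.ncard_image_of_injective _ latPt_injective, Set.ncard_coe_finset]

end Pool.Agent.MP_f22ace_co
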