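import Pool.Agent.Lib_MP_f22ace_co.Corner

set_option autoImplicit false

namespace Pool.Agent.MP_f22ace_co

open Set

variable {d k : ℕ}

lemma latPt_isLatticePoint (z : Fin d → Fin (k + 1)) : IsLatticePoint (latPt d k z) :=
  fun i => ⟨((z i : ℕ) : ℤ), by simp [latPt]⟩

lemma latPt_mem_box (z : Fin d → Fin (k + 1)) :
    latPt d k z ∈ Set.Icc (0 : Fin d → ℝ) (fun _ => (k : ℝ)) := by
  constructor
  · intro i
    simp [latPt]
  · intro i
    simp only [latPt]
    exact_mod_cast Nat.lt_succ_iff.mp (z i).2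

open Classical in
/-- The polytope with a given (finite, spanning) set of vertices. -/
lemma exists_family (W base : Finset (Fin d → Fin (k + 1))) (hb : base ⊆ W)
    (hind : ∀ z ∈ W, ∃ f : (Fin d → ℝ) →ₗ[ℝ] ℝ, ∀ w ∈ W, w ≠ z →
      f (latPt d k z) < f (latPt d k w))
    (hspan : affineSpan ℝ (latPt d k '' (base : Set (Fin d → Fin (k + 1)))) = ⊤) :
    ∃ F : Finset (LatticePolytope d k), F.card = 2 ^ (W.card - base.card) ∧
      ∀ P ∈ F, base ⊆ code P ∧ code P ⊆ W := by
  have key : ∀ A : Finset (Fin d → Fin (k + 1)), A ⊆ W →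
      vertexSet (convexHull ℝ (latPt d k '' (A : Set (Fin d → Fin (k + 1))))) =
        latPt d k '' (A : Set (Fin d → Fin (k + 1))) := by
    intro A hA
    apply vertexSet_convexHull_eq ((Finset.finite_toSet A).image _)
    rintro x ⟨z, hz, rfl⟩ hx
    obtain ⟨f, hf⟩ := hind z (hA hz)
    have hconv : Convex ℝ {y : Fin d → ℝ | f (latPt d k z) < f y} :=
      convex_halfSpace_gt f.isLinear _
    have hsub : latPt d k '' (A : Set (Fin d → Fin (k + 1))) \ {latPt d k z} ⊆
        {y : Fin d → ℝ | f (latPt d k z) < f y} := by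
      rintro y ⟨⟨w, hw, rfl⟩, hne⟩
      apply hf w (hA hw)
      rintro rfl
      exact hne rfl
    have := convexHull_min hsub hconv hx
    simp only [Set.mem_ofPred_eq, lt_irrefl] at this
  have hmk : ∀ A : Finset (Fin d → Fin (k + 1)), base ⊆ A → A ⊆ W →
      ∃ P : LatticePolytope d k, code P = A := by
    intro A hA1 hA2
    have hsp : affineSpan ℝ (latPt d k '' (A : Set (Fin d → Fin (k + 1)))) = ⊤ := by
      rw [eq_top_iff, ← hspan]
      exact affineSpan_mono _ (image_mono (Finset.coe_subset.2 hA1))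
    refine ⟨⟨convexHull ℝ (latPt d k '' (A : Set (Fin d → Fin (k + 1)))),
      isLatticePolytope_convexHull ((Finset.finite_toSet A).image _) ?_ hsp, ?_⟩, ?_⟩
    · rintro x ⟨z, -, rfl⟩
      exact latPt_isLatticePoint z
    · apply convexHull_min _ box_convex
      rintro x ⟨z, -, rfl⟩
      exact latPt_mem_box z
    · ext z
      simp only [code, Finset.mem_filter, Finset.mem_univ, true_and]
      rw [key A hA2, latPt_injective.mem_set_image]
      simp
  choose g hg using hmk
  let F : Finset (LatticePolytope d k) := (W \ base).powerset.attach.image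
    (fun B => g (base ∪ B.1) Finset.subset_union_left (by
      apply Finset.union_subset hb
      exact (Finset.mem_powerset.1 B.2).trans Finset.sdiff_subset))
  refine ⟨F, ?_, ?_⟩
  · rw [Finset.card_image_of_injective, Finset.card_attach, Finset.card_powerset,
      Finset.card_sdiff_of_subset hb]
    rintro ⟨B, hB⟩ ⟨C, hC⟩ h
    have h1 : base ∪ B = base ∪ C := by
      rw [← hg (base ∪ B) Finset.subset_union_left (by
        apply Finset.union_subset hb
        exact (Finset.mem_powerset.1 hB).trans Finset.sdiff_subset),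
        ← hg (base ∪ C) Finset.subset_union_left (by
        apply Finset.union_subset hb
        exact (Finset.mem_powerset.1 hC).trans Finset.sdiff_subset)]
      exact congrArg code h
    rw [Finset.mem_powerset] at hB hC
    have e : ∀ D : Finset (Fin d → Fin (k + 1)), D ⊆ W \ base → (base ∪ D) \ base = D := by
      intro D hD
      rw [Finset.union_sdiff_left]
      apply Finset.sdiff_eq_self_of_disjoint
      rw [Finset.disjoint_left]
      intro z hz hz'
      exact (Finset.mem_sdiff.1 (hD hz)).2 hz'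
    apply Subtype.ext
    simp only
    rw [← e B hB, ← e C hC, h1]
  · intro P hP
    simp only [F, Finset.mem_image, Finset.mem_attach, true_and] at hP
    obtain ⟨⟨B, hB⟩, rfl⟩ := hP
    rw [hg]
    refine ⟨Finset.subset_union_left, ?_⟩
    apply Finset.union_subset hb
    exact (Finset.mem_powerset.1 hB).trans Finset.sdiff_subset

/-- The origin. -/
def zeroPt (d k : ℕ) : Fin d → Fin (k + 1) := fun _ => 0

lemma latPt_zeroPt : latPt d k (zeroPt d k) = 0 := by
  funext i
  simp [latPt, zeroPt]

lemma mem_code {P : LatticePolytope d k} {z : Fin d → Fin (k + 1)} :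
    z ∈ code P ↔ latPt d k z ∈ vertexSet P.1 := by
  simp [code]

lemma mem_corner_iff {P : LatticePolytope d k} : P ∈ corner d k ↔ zeroPt d k ∈ code P := by
  rw [mem_corner, mem_code, latPt_zeroPt]
  exact ⟨zero_mem_vertexSet, fun h => vertexSet_subset _ h⟩

open Classical in
lemma corner_card_ge (W base : Finset (Fin d → Fin (k + 1))) (hb : base ⊆ W)
    (hind : ∀ z ∈ W, ∃ f : (Fin d → ℝ) →ₗ[ℝ] ℝ, ∀ w ∈ W, w ≠ z →
      f (latPt d k z) < f (latPt d k w))
    (hspan : affineSpan ℝ (latPt d k '' (base : Set (Fin d → Fin (k + 1)))) = ⊤)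
    (h0 : zeroPt d k ∈ base) :
    2 ^ (W.card - base.card) ≤ (corner d k).card := by
  obtain ⟨F, hF, hF'⟩ := exists_family W base hb hind hspan
  rw [← hF]
  apply Finset.card_le_card
  intro P hP
  rw [mem_corner_iff]
  exact (hF' P hP).1 h0

open Classical in
lemma corner_compl_card_ge (W base : Finset (Fin d → Fin (k + 1))) (hb : base ⊆ W)
    (hind : ∀ z ∈ W, ∃ f : (Fin d → ℝ) →ₗ[ℝ] ℝ, ∀ w ∈ W, w ≠ z →
      f (latPt d k z) < f (latPt d k w))
    (hspan : affineSpan ℝ (latPt d k '' (base : Set (Fin d → Fin (k + 1)))) = ⊤)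
    (h0 : zeroPt d k ∉ W) :
    2 ^ (W.card - base.card) ≤ ((corner d k)ᶜ).card := by
  obtain ⟨F, hF, hF'⟩ := exists_family W base hb hind hspan
  rw [← hF]
  apply Finset.card_le_card
  intro P hP
  rw [Finset.mem_compl, mem_corner_iff]
  exact fun h => h0 ((hF' P hP).2 h)

end Pool.Agent.MP_f22ace_co
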