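import Pool.Agent.Lib_MP_f22ace_co.Left

set_option autoImplicit false

namespace Pool.Agent.MP_f22ace_co

open Set Pointwise

variable {k : ℕ}

lemma up_zero : up 0 = 0 := rfl
lemma up_one : up 1 = 1 := rfl

/-- The stretched polygon, inside of the square. -/
noncomputable def stretchP (P : LatticePolytope 2 k) (j : ℕ) (h : ∀ p ∈ P.1, p 1 + j ≤ k) :
    LatticePolytope 2 k :=
  ⟨stretch P.1 j, isLatticePolytope_stretch P.2.1 j, by
    intro q hq
    rw [mem_stretch] at hq
    obtain ⟨p, hp, s, hs0, hs1, rfl⟩ := hq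
    constructor
    · intro i
      have := nonneg_of_mem hp i
      fin_cases i
      · simpa [up] using this
      · simp only [Fin.mk_one, Pi.zero_apply, Pi.add_apply, Pi.smul_apply, smul_eq_mul, up_one]
        simp only [Fin.mk_one] at this
        linarith
    · intro i
      have := le_of_mem hp i
      fin_cases i
      · simpa [up] using this
      · simp only [Fin.mk_one, Pi.add_apply, Pi.smul_apply, smul_eq_mul, up_one]
        have := h p hp
        linarith⟩

open Classical in
/-- The polygons which stay at distance `J` from the top side. -/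
noncomputable def low (k J : ℕ) : Finset (LatticePolytope 2 k) :=
  Finset.univ.filter (fun P => ∀ p ∈ P.1, p 1 + J ≤ k)

lemma mem_low {J : ℕ} {P : LatticePolytope 2 k} : P ∈ low k J ↔ ∀ p ∈ P.1, p 1 + J ≤ k := by
  simp [low]

/-- The left face of a stretched polygon. -/
lemma stretch_left_iff {P : Set (Fin 2 → ℝ)} {x : Fin 2 → ℝ} (hx : x ∈ P) (hx0 : x 0 = 0)
    (hx1 : ∀ p ∈ P, p 0 = 0 → p = x) (j : ℕ) (q : Fin 2 → ℝ) (hq0 : q 0 = 0) :
    q ∈ stretch P j ↔ x 1 ≤ q 1 ∧ q 1 ≤ x 1 + j := by
  rw [mem_stretch]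
  constructor
  · rintro ⟨p, hp, s, hs0, hs1, rfl⟩
    simp only [Pi.add_apply, Pi.smul_apply, smul_eq_mul, up_zero, mul_zero, add_zero] at hq0
    rw [hx1 p hp hq0]
    simp only [Pi.add_apply, Pi.smul_apply, smul_eq_mul, up_one, mul_one]
    constructor <;> linarith
  · rintro ⟨h1, h2⟩
    refine ⟨x, hx, q 1 - x 1, by linarith, by linarith, ?_⟩
    ext i
    fin_cases i
    · simp [up, hq0, hx0]
    · simp [up]

open Classical in
lemma card_low_le (k J : ℕ) : (left1 k ∩ low k J).card * J ≤ (left k).card := by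
  rcases Nat.eq_zero_or_pos J with hJ | hJ
  · subst hJ
    simp
  have h1 : ((left1 k ∩ low k J) ×ˢ Finset.range J).card ≤ (left k).card := by
    let f : LatticePolytope 2 k × ℕ → LatticePolytope 2 k := fun a =>
      if h : ∀ p ∈ a.1.1, p 1 + a.2 ≤ k then stretchP a.1 a.2 h else a.1
    have hlow : ∀ a ∈ (left1 k ∩ low k J) ×ˢ Finset.range J, ∀ p ∈ a.1.1, p 1 + a.2 ≤ k := by
      rintro ⟨P, j⟩ h p hp
      simp only [Finset.mem_product, Finset.mem_inter, mem_low, Finset.mem_range] at h
      have h2 := h.1.2 p hp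
      have h3 : (j : ℝ) ≤ J := by exact_mod_cast h.2.le
      simp only
      linarith
    apply Finset.card_le_card_of_injOn f
    · rintro ⟨P, j⟩ h
      have hl := hlow _ h
      simp only [Finset.mem_coe, Finset.mem_product, Finset.mem_inter, mem_left1] at h
      obtain ⟨⟨⟨x, hx, hx0, hx1⟩, -⟩, -⟩ := h
      simp only [f, dif_pos hl, Finset.mem_coe, mem_left]
      exact ⟨x, subset_stretch _ _ hx, hx0⟩
    · rintro ⟨P, i⟩ h ⟨Q, j⟩ h' heq
      have hl := hlow _ h
      have hl' := hlow _ h'
      simp only [Finset.mem_coe, Finset.mem_product, Finset.mem_inter, mem_left1] at h h'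
      obtain ⟨⟨⟨x, hx, hx0, hx1⟩, -⟩, -⟩ := h
      obtain ⟨⟨⟨y, hy, hy0, hy1⟩, -⟩, -⟩ := h'
      simp only [f, dif_pos hl, dif_pos hl'] at heq
      have heq' : stretch P.1 i = stretch Q.1 j := congrArg Subtype.val heq
      have hiff : ∀ s : ℝ, (x 1 ≤ s ∧ s ≤ x 1 + i) ↔ (y 1 ≤ s ∧ s ≤ y 1 + j) := by
        intro s
        have e1 := stretch_left_iff hx hx0 hx1 i ![0, s] rfl
        have e2 := stretch_left_iff hy hy0 hy1 j ![0, s] rfl
        rw [heq'] at e1
        simpa using e1.symm.trans e2
      have hi0 : (0 : ℝ) ≤ i := Nat.cast_nonneg _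
      have hj0 : (0 : ℝ) ≤ j := Nat.cast_nonneg _
      have a1 := (hiff (x 1)).1 ⟨le_refl _, by linarith⟩
      have a2 := (hiff (y 1)).2 ⟨le_refl _, by linarith⟩
      have a3 := (hiff (x 1 + i)).1 ⟨by linarith, le_refl _⟩
      have a4 := (hiff (y 1 + j)).2 ⟨by linarith, le_refl _⟩
      have hij : (i : ℝ) = j := by linarith [a1.1, a2.1, a3.2, a4.2]
      have hij' : i = j := by exact_mod_cast hij
      subst hij'
      have hPQ : P = Q := by
        apply Subtype.ext
        apply Subset.antisymm
        · exact stretch_cancel Q.2.1.1.convex heq'.subset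
        · exact stretch_cancel P.2.1.1.convex heq'.symm.subset
      rw [hPQ]
  rwa [Finset.card_product, Finset.card_range] at h1

open Classical in
/-- Inclusion of squares. -/
lemma card_left_le {k' J : ℕ} (h : k' + J = k) : (left k').card ≤ (left k ∩ low k J).card := by
  have hbox : ∀ P : LatticePolytope 2 k', P.1 ⊆ Set.Icc (0 : Fin 2 → ℝ) (fun _ => (k : ℝ)) := by
    intro P
    refine P.2.2.trans (Icc_subset_Icc_right ?_)
    intro i
    simp only [Nat.cast_le]
    omega
  let f : LatticePolytope 2 k' → LatticePolytope 2 k := fun P => ⟨P.1, P.2.1, hbox P⟩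
  apply Finset.card_le_card_of_injOn f
  · intro P hP
    rw [Finset.mem_coe, mem_left] at hP
    rw [Finset.mem_coe, Finset.mem_inter, mem_left, mem_low]
    refine ⟨hP, fun p hp => ?_⟩
    have := le_of_mem (P := P) hp 1
    have h2 : ((k' : ℝ) + J) = k := by exact_mod_cast h
    linarith
  · intro P _ Q _ hPQ
    have := congrArg Subtype.val hPQ
    exact Subtype.ext this

/-- The translation by `e₁`. -/
noncomputable def shiftMap : (Fin 2 → ℝ) ≃ᵃ[ℝ] (Fin 2 → ℝ) :=
  AffineEquiv.constVAdd ℝ (Fin 2 → ℝ) ![1, 0]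

lemma shiftMap_apply (p : Fin 2 → ℝ) : shiftMap p = ![1, 0] + p := rfl

lemma isLatticePolytope_shift {P : Set (Fin 2 → ℝ)} (hP : IsLatticePolytope P) :
    IsLatticePolytope (shiftMap '' P) := by
  have h1 : shiftMap '' P = convexHull ℝ (shiftMap '' (vertexSet P)) := by
    conv_lhs => rw [← hP.1.convexHull_vertexSet]
    exact AffineMap.image_convexHull (shiftMap : (Fin 2 → ℝ) →ᵃ[ℝ] (Fin 2 → ℝ)) _
  refine ⟨?_, ?_, ?_⟩
  · rw [h1]
    exact isPolytope_convexHull (hP.1.finite_vertexSet.image _)
  · intro v hv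
    rw [h1] at hv
    obtain ⟨p, hp, rfl⟩ := vertexSet_convexHull_subset _ hv
    intro i
    obtain ⟨z, hz⟩ := hP.2.1 p hp i
    rw [shiftMap_apply, Pi.add_apply, hz]
    fin_cases i
    · exact ⟨1 + z, by simp⟩
    · exact ⟨z, by simp⟩
  · rw [← AffineEquiv.span_eq_top_iff]
    exact hP.2.2

open Classical in
/-- Translating a polygon away from the left side. -/
lemma card_compl_left_ge {k' J : ℕ} (h : k' + J = k) (hJ : 1 ≤ J) :
    Fintype.card (LatticePolytope 2 k') ≤ ((left k)ᶜ).card := by
  have hbox : ∀ P : LatticePolytope 2 k', shiftMap '' P.1 ⊆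
      Set.Icc (0 : Fin 2 → ℝ) (fun _ => (k : ℝ)) := by
    rintro P _ ⟨p, hp, rfl⟩
    have hk : (k' : ℝ) + 1 ≤ k := by
      have : k' + 1 ≤ k := by omega
      exact_mod_cast this
    rw [shiftMap_apply]
    constructor
    · intro i
      have := nonneg_of_mem hp i
      fin_cases i
      · simp only [Fin.zero_eta, Pi.zero_apply, Pi.add_apply, Matrix.cons_val_zero]
        simp only [Fin.zero_eta] at this
        linarith
      · simpa using this
    · intro i
      have := le_of_mem hp i
      fin_cases i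
      · simp only [Fin.zero_eta, Pi.add_apply, Matrix.cons_val_zero]
        simp only [Fin.zero_eta] at this
        linarith
      · simp only [Fin.mk_one, Pi.add_apply]
        simp only [Fin.mk_one] at this
        simp
        linarith
  rw [← Finset.card_univ]
  let f : LatticePolytope 2 k' → LatticePolytope 2 k := fun P =>
    ⟨shiftMap '' P.1, isLatticePolytope_shift P.2.1, hbox P⟩
  apply Finset.card_le_card_of_injOn f
  · intro P _
    rw [Finset.mem_coe, Finset.mem_compl, mem_left]
    push Not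
    rintro _ ⟨p, hp, rfl⟩ h0
    rw [shiftMap_apply] at h0
    have := nonneg_of_mem hp 0
    simp at h0
    linarith
  · intro P _ Q _ hPQ
    have := congrArg Subtype.val hPQ
    exact Subtype.ext (shiftMap.injective.image_injective this)

end Pool.Agent.MP_f22ace_co
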