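import Pool.Agent.Lib_MP_f22ace_co.Chain
import Pool.Agent.Lib_MP_f22ace_co.Left2
import Pool.Agent.Lib_MP_f22ace_co.Families

set_option autoImplicit false

namespace Pool.Agent.MP_f22ace_co

open Set

variable {k : ℕ}

/-- Every vertex is strictly exposed by a linear functional. -/
lemma exposed (P : LatticePolytope 2 k) (z : Fin 2 → Fin (k + 1)) (hz : z ∈ code P) :
    ∃ α β : ℝ, ∀ w ∈ code P, w ≠ z →
      α * ((w 0 : ℕ) : ℝ) + β * ((w 1 : ℕ) : ℝ) < α * ((z 0 : ℕ) : ℝ) + β * ((z 1 : ℕ) : ℝ) := by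
  rw [mem_code] at hz
  have h1 := notMem_convexHull_of_mem_vertexSet P.2.1.1.convex hz
  have hfin : (vertexSet P.1 \ {latPt 2 k z}).Finite := P.2.1.1.finite_vertexSet.subset sdiff_subset
  obtain ⟨f, u, hf1, hf2⟩ := geometric_hahn_banach_closed_point (convex_convexHull ℝ _)
    (hfin.isClosed_convexHull ℝ) h1
  have hf : ∀ p : Fin 2 → ℝ, f p = f ![1, 0] * p 0 + f ![0, 1] * p 1 := by
    intro p
    have hp : p = p 0 • (![1, 0] : Fin 2 → ℝ) + p 1 • (![0, 1] : Fin 2 → ℝ) := by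
      ext i
      fin_cases i <;> simp
    conv_lhs => rw [hp]
    rw [map_add, map_smul, map_smul, smul_eq_mul, smul_eq_mul]
    ring
  refine ⟨f ![1, 0], f ![0, 1], fun w hw hwz => ?_⟩
  have h2 : latPt 2 k w ∈ vertexSet P.1 \ {latPt 2 k z} := by
    refine ⟨mem_code.1 hw, ?_⟩
    intro hh
    exact hwz (latPt_injective hh)
  have h3 := (hf1 _ (subset_convexHull ℝ _ h2)).trans hf2
  rw [hf (latPt 2 k w), hf (latPt 2 k z)] at h3
  exact h3

open Classical in
/-- The vertices exposed by a functional in a given quadrant. -/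
noncomputable def cls (P : LatticePolytope 2 k) (s t : ℤ) : Finset (Fin 2 → Fin (k + 1)) :=
  (code P).filter (fun z => ∃ α β : ℝ, 0 ≤ α ∧ 0 ≤ β ∧ ∀ w ∈ code P, w ≠ z →
      α * ((s * (w 0 : ℕ) : ℤ) : ℝ) + β * ((t * (w 1 : ℕ) : ℤ) : ℝ) <
      α * ((s * (z 0 : ℕ) : ℤ) : ℝ) + β * ((t * (z 1 : ℕ) : ℤ) : ℝ))

lemma mem_cls {P : LatticePolytope 2 k} {s t : ℤ} {z : Fin 2 → Fin (k + 1)} :
    z ∈ cls P s t ↔ z ∈ code P ∧ ∃ α β : ℝ, 0 ≤ α ∧ 0 ≤ β ∧ ∀ w ∈ code P, w ≠ z →
      α * ((s * (w 0 : ℕ) : ℤ) : ℝ) + β * ((t * (w 1 : ℕ) : ℤ) : ℝ) <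
      α * ((s * (z 0 : ℕ) : ℤ) : ℝ) + β * ((t * (z 1 : ℕ) : ℤ) : ℝ) := by
  simp only [cls, Finset.mem_filter]

open Classical in
lemma class_card (P : LatticePolytope 2 k) (G : ℕ) (hG : 1 ≤ G) (s t : ℤ) (hs : s = 1 ∨ s = -1)
    (ht : t = 1 ∨ t = -1) :
    (cls P s t).card ≤ G * G + 2 * (k / G) + 1 := by
  let φ : (Fin 2 → Fin (k + 1)) → ℤ × ℤ := fun z => (s * (z 0 : ℕ), t * (z 1 : ℕ))
  have hφ : Function.Injective φ := by
    intro z w h
    have h1 : s * ((z 0 : ℕ) : ℤ) = s * ((w 0 : ℕ) : ℤ) := congrArg Prod.fst h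
    have h2 : t * ((z 1 : ℕ) : ℤ) = t * ((w 1 : ℕ) : ℤ) := congrArg Prod.snd h
    have hs0 : s ≠ 0 := by rcases hs with h | h <;> rw [h] <;> norm_num
    have ht0 : t ≠ 0 := by rcases ht with h | h <;> rw [h] <;> norm_num
    have h3 := mul_left_cancel₀ hs0 h1
    have h4 := mul_left_cancel₀ ht0 h2
    funext i
    fin_cases i
    · exact Fin.ext (by exact_mod_cast h3)
    · exact Fin.ext (by exact_mod_cast h4)
  rw [← Finset.card_image_of_injective (cls P s t) hφ]
  have bound : ∀ (r : ℤ), (r = 1 ∨ r = -1) → ∀ x : Fin (k + 1),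
      (if r = 1 then (0 : ℤ) else -k) ≤ r * ((x : ℕ) : ℤ) ∧
      r * ((x : ℕ) : ℤ) ≤ (if r = 1 then (0 : ℤ) else -k) + k := by
    intro r hr x
    have := x.2
    rcases hr with hr | hr
    · subst hr
      simp only [if_true]
      omega
    · subst hr
      norm_num
      omega
  apply chain_card _ (if s = 1 then 0 else -k) (if t = 1 then 0 else -k) k G hG
  · intro v hv
    rw [Finset.mem_image] at hv
    obtain ⟨z, -, rfl⟩ := hv
    exact bound s hs (z 0)
  · intro v hv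
    rw [Finset.mem_image] at hv
    obtain ⟨z, -, rfl⟩ := hv
    exact bound t ht (z 1)
  · intro v hv
    rw [Finset.mem_image] at hv
    obtain ⟨z, hz, rfl⟩ := hv
    rw [mem_cls] at hz
    obtain ⟨α, β, hα, hβ, h⟩ := hz.2
    refine ⟨α, β, hα, hβ, ?_⟩
    intro w hw hwz
    rw [Finset.mem_image] at hw
    obtain ⟨y, hy, rfl⟩ := hw
    rw [mem_cls] at hy
    exact h y hy.1 (fun hh => hwz (by rw [hh]))

/-- Jarnik type bound for the number of vertices of a lattice polygon. -/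
lemma card_code_le (P : LatticePolytope 2 k) (G : ℕ) (hG : 1 ≤ G) :
    (code P).card ≤ 4 * (G * G + 2 * (k / G) + 1) := by
  classical
  have c1 := class_card P G hG 1 1 (Or.inl rfl) (Or.inl rfl)
  have c2 := class_card P G hG 1 (-1) (Or.inl rfl) (Or.inr rfl)
  have c3 := class_card P G hG (-1) 1 (Or.inr rfl) (Or.inl rfl)
  have c4 := class_card P G hG (-1) (-1) (Or.inr rfl) (Or.inr rfl)
  have hcover : code P ⊆ (cls P 1 1 ∪ cls P 1 (-1)) ∪ (cls P (-1) 1 ∪ cls P (-1) (-1)) := by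
    intro z hz
    obtain ⟨α, β, h⟩ := exposed P z hz
    simp only [Finset.mem_union, mem_cls, hz, true_and]
    rcases le_total 0 α with hα | hα
    · rcases le_total 0 β with hβ | hβ
      · refine Or.inl (Or.inl ⟨α, β, hα, hβ, fun w hw hwz => ?_⟩)
        have := h w hw hwz
        push_cast
        linarith
      · refine Or.inl (Or.inr ⟨α, -β, hα, by linarith, fun w hw hwz => ?_⟩)
        have := h w hw hwz
        push_cast
        linarith
    · rcases le_total 0 β with hβ | hβ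
      · refine Or.inr (Or.inl ⟨-α, β, by linarith, hβ, fun w hw hwz => ?_⟩)
        have := h w hw hwz
        push_cast
        linarith
      · refine Or.inr (Or.inr ⟨-α, -β, by linarith, by linarith, fun w hw hwz => ?_⟩)
        have := h w hw hwz
        push_cast
        linarith
  have h1 := Finset.card_le_card hcover
  have h2 := Finset.card_union_le (cls P 1 1 ∪ cls P 1 (-1)) (cls P (-1) 1 ∪ cls P (-1) (-1))
  have h3 := Finset.card_union_le (cls P 1 1) (cls P 1 (-1))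
  have h4 := Finset.card_union_le (cls P (-1) 1) (cls P (-1) (-1))
  omega

/-- Subexponential growth of the number of polygons, along the cubes. -/
lemma card_polygons_le (G : ℕ) (hG : 1 ≤ G) :
    Fintype.card (LatticePolytope 2 (G * G * G)) ≤
      ((G * G * G + 1) ^ 2 + 1) ^ (16 * (G * G)) := by
  classical
  have h := card_few 2 (G * G * G) (16 * (G * G))
  rw [Finset.filter_true_of_mem, Finset.card_univ] at h
  · exact h
  · intro P _
    have h1 := card_code_le P G hG
    have h2 : G * G * G / G = G * G := Nat.mul_div_cancel _ (by omega)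
    rw [h2] at h1
    have h3 : 1 ≤ G * G := Nat.mul_pos hG hG
    omega

end Pool.Agent.MP_f22ace_co
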