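import Pool.Agent.Lib_MP_f22ace_co.MomentFamily

set_option autoImplicit false

namespace Pool.Agent.MP_f22ace_co

open Set Filter

variable {d k : ℕ}

section abstract

variable {V : Type} [Fintype V] (G : SimpleGraph V)

open Classical in
lemma cutSize_compl (S : Finset V) : cutSize G Sᶜ = cutSize G S := by
  unfold cutSize
  rw [compl_compl]
  have : Std.Symm G.Adj := ⟨fun _ _ h => h.symm⟩
  exact Rel.card_interedges_comm _ _

open Classical in
lemma vol_add_vol_compl (S : Finset V) : vol G S + vol G Sᶜ = vol G Finset.univ := by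
  unfold vol
  exact Finset.sum_add_sum_compl S _

end abstract

open Classical in
lemma phi_bound (m : ℕ) (hm : d + 1 ≤ m)
    (h1 : 2 * ((k + 1) ^ d + 1) ^ m ≤ (corner d k).card)
    (h2 : 2 * ((k + 1) ^ d + 1) ^ m ≤ ((corner d k)ᶜ).card) :
    ∃ S : Finset (LatticePolytope d k), 0 < vol (Lam d k) S ∧
      2 * vol (Lam d k) S ≤ vol (Lam d k) Finset.univ ∧
      cutSize (Lam d k) S * (m - d) ≤ 2 * vol (Lam d k) S := by
  have e1 := vol_ge d k m _ h1
  have e2 := vol_ge d k m _ h2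
  have e3 := cut_corner_le d k
  have e4 := cut_corner_le' d k
  have e5 := vol_add_vol_compl (Lam d k) (corner d k)
  have e6 := cutSize_compl (Lam d k) (corner d k)
  have hpos : 0 < 2 * ((k + 1) ^ d + 1) ^ m := by positivity
  have e7 : m + 1 - (d + 1) = m - d := by omega
  rw [e7] at e1 e2
  have hmd : 1 ≤ m - d := by omega
  rcases le_total (vol (Lam d k) (corner d k)) (vol (Lam d k) (corner d k)ᶜ) with h | h
  · refine ⟨corner d k, ?_, by omega, ?_⟩
    · have : 1 * 1 ≤ (corner d k).card * (m - d) := Nat.mul_le_mul (by omega) hmd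
      omega
    · exact (Nat.mul_le_mul_right _ e3).trans e1
  · refine ⟨(corner d k)ᶜ, ?_, by omega, ?_⟩
    · have : 1 * 1 ≤ ((corner d k)ᶜ).card * (m - d) := Nat.mul_le_mul (by omega) hmd
      omega
    · rw [e6]
      exact (Nat.mul_le_mul_right _ e4).trans e2

lemma exists_small (c : ℝ) (hc : 0 < c) : ∃ M : ℕ, 1 ≤ M ∧ 2 ≤ c * M := by
  obtain ⟨M, hM⟩ := exists_nat_ge (2 / c)
  refine ⟨M + 1, by omega, ?_⟩
  rw [div_le_iff₀ hc] at hM
  push_cast
  nlinarith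

lemma small_of_bound {V : Type} [Fintype V] {G : SimpleGraph V} {S : Finset V} {c : ℝ} {M : ℕ}
    (hM : 1 ≤ M) (hM2 : 2 ≤ c * M) (h : cutSize G S * M ≤ 2 * vol G S) :
    (cutSize G S : ℝ) ≤ c * vol G S := by
  have h1 : (cutSize G S : ℝ) * M ≤ 2 * vol G S := by exact_mod_cast h
  have hMpos : (0 : ℝ) < M := by exact_mod_cast hM
  have h2 : (cutSize G S : ℝ) * M ≤ (c * vol G S) * M := by
    have : (0 : ℝ) ≤ vol G S := Nat.cast_nonneg _
    nlinarith
  exact le_of_mul_le_mul_right h2 hMpos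

/-- exponentials beat polynomials -/
lemma eventually_pow_le (D c : ℕ) : ∃ T : ℕ, ∀ t ≥ T, 2 ^ c * (t + 2) ^ D ≤ 2 ^ t := by
  have h := tendsto_pow_const_div_const_pow_of_one_lt D (r := (2 : ℝ)) (by norm_num)
  have h1 : ∀ᶠ n : ℕ in atTop, (n : ℝ) ^ D / 2 ^ n < 1 / 2 ^ (c + 2) :=
    h.eventually (gt_mem_nhds (by positivity))
  obtain ⟨T, hT⟩ := eventually_atTop.1 h1
  refine ⟨T, fun t ht => ?_⟩
  have h2 := hT (t + 2) (by omega)
  rw [div_lt_div_iff₀ (by positivity) (by positivity)] at h2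
  have h3 : ((t + 2 : ℕ) : ℝ) ^ D * 2 ^ (c + 2) < 2 ^ (t + 2) := by simpa using h2
  have h4 : (t + 2) ^ D * 2 ^ (c + 2) < 2 ^ (t + 2) := by exact_mod_cast h3
  have h5 : (t + 2) ^ D * 2 ^ (c + 2) = 4 * (2 ^ c * (t + 2) ^ D) := by ring
  have h6 : 2 ^ (t + 2) = 4 * 2 ^ t := by ring
  omega

theorem phi_fixed_dim (d : ℕ) (hd : 2 ≤ d) (ε : ℝ) (hε : 0 < ε) :
    ∃ K : ℕ, ∀ k ≥ K, ∃ S : Finset (LatticePolytope d k), 0 < vol (Lam d k) S ∧
      2 * vol (Lam d k) S ≤ vol (Lam d k) Finset.univ ∧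
      (cutSize (Lam d k) S : ℝ) ≤ ε * vol (Lam d k) S := by
  obtain ⟨M, hM1, hM2⟩ := exists_small ε hε
  obtain ⟨T, hT⟩ := eventually_pow_le (d * d * (d + M)) (d + 2)
  refine ⟨(T + d + 1) ^ d, fun k hk => ?_⟩
  let t := Nat.findGreatest (fun t => t ^ d ≤ k) k
  have hP0 : (T + d + 1) ≤ k := le_trans (Nat.le_self_pow (by omega) _) hk
  have ht1 : t ^ d ≤ k := Nat.findGreatest_spec (P := fun t => t ^ d ≤ k) hP0 hk
  have ht2 : T + d + 1 ≤ t := Nat.le_findGreatest hP0 hk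
  have ht3 : k < (t + 1) ^ d := by
    by_contra hcon
    push Not at hcon
    have h1 : t + 1 ≤ k := le_trans (Nat.le_self_pow (by omega) _) hcon
    have : t + 1 ≤ t := Nat.le_findGreatest h1 hcon
    omega
  have hb : 2 * ((k + 1) ^ d + 1) ^ (d + M) ≤ 2 ^ (t - (d + 1)) := by
    have h1 : (k + 1) ^ d + 1 ≤ (t + 2) ^ (d * d) := by
      calc (k + 1) ^ d + 1 ≤ ((t + 1) ^ d) ^ d + 1 := by
            gcongr
            omega
        _ = (t + 1) ^ (d * d) + 1 := by rw [pow_mul]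
        _ ≤ (t + 2) ^ (d * d) :=
            Nat.succ_le_of_lt (Nat.pow_lt_pow_left (by omega) (by positivity))
    have h2 : ((k + 1) ^ d + 1) ^ (d + M) ≤ (t + 2) ^ (d * d * (d + M)) := by
      rw [pow_mul]
      exact Nat.pow_le_pow_left h1 _
    have h3 := hT t (by omega)
    have h4 : 2 ^ t = 2 ^ (d + 1) * 2 ^ (t - (d + 1)) := by
      rw [← pow_add]
      congr 1
      omega
    have h5 : 2 ^ (d + 2) = 2 ^ (d + 1) * 2 := by ring
    have h6 : 2 ^ (d + 1) * (2 * (t + 2) ^ (d * d * (d + M))) ≤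
        2 ^ (d + 1) * 2 ^ (t - (d + 1)) := by
      calc 2 ^ (d + 1) * (2 * (t + 2) ^ (d * d * (d + M)))
          = 2 ^ (d + 2) * (t + 2) ^ (d * d * (d + M)) := by rw [h5, ← mul_assoc (2 ^ (d + 1)) 2]
        _ ≤ 2 ^ t := h3
        _ = _ := h4
    have h7 := Nat.le_of_mul_le_mul_left h6 (by positivity)
    omega
  obtain ⟨S, hS1, hS2, hS3⟩ := phi_bound (d := d) (k := k) (d + M) (by omega)
    (hb.trans ((Nat.pow_le_pow_right (by norm_num) (by omega)).trans
      (moment_corner hd ht1 (by omega))))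
    (hb.trans (moment_corner_compl hd ht1 (by omega)))
  refine ⟨S, hS1, hS2, small_of_bound hM1 hM2 ?_⟩
  simpa using hS3

theorem phi_fixed_side (k : ℕ) (hk : 1 ≤ k) (ε : ℝ) (hε : 0 < ε) :
    ∃ D : ℕ, ∀ d ≥ D, ∃ S : Finset (LatticePolytope d k), 0 < vol (Lam d k) S ∧
      2 * vol (Lam d k) S ≤ vol (Lam d k) Finset.univ ∧
      (cutSize (Lam d k) S : ℝ) ≤ ε * vol (Lam d k) S := by
  obtain ⟨M, hM1, hM2⟩ := exists_small ε hε
  obtain ⟨T, hT⟩ := eventually_pow_le 2 (k + M + 6)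
  refine ⟨T + 2, fun d hd => ?_⟩
  have h0 := hT d (by omega)
  have hb : 2 * ((k + 1) ^ d + 1) ^ (d + M) ≤ 2 ^ (2 ^ d - 1 - (d + 1)) := by
    have h1 : (k + 1) ^ d + 1 ≤ (k + 2) ^ d :=
      Nat.succ_le_of_lt (Nat.pow_lt_pow_left (by omega) (by omega))
    have h2 : k + 2 ≤ 2 ^ (k + 2) := Nat.lt_two_pow_self.le
    have h3 : ((k + 1) ^ d + 1) ^ (d + M) ≤ 2 ^ ((k + 2) * d * (d + M)) := by
      calc ((k + 1) ^ d + 1) ^ (d + M) ≤ ((2 ^ (k + 2)) ^ d) ^ (d + M) := by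
            gcongr
            exact h1.trans (Nat.pow_le_pow_left h2 d)
        _ = 2 ^ ((k + 2) * d * (d + M)) := by rw [pow_mul 2 ((k + 2) * d), pow_mul 2 (k + 2)]
    have h4 : 2 * 2 ^ ((k + 2) * d * (d + M)) = 2 ^ ((k + 2) * d * (d + M) + 1) := by ring
    calc 2 * ((k + 1) ^ d + 1) ^ (d + M) ≤ 2 * 2 ^ ((k + 2) * d * (d + M)) := by omega
      _ = 2 ^ ((k + 2) * d * (d + M) + 1) := h4
      _ ≤ 2 ^ (2 ^ d - 1 - (d + 1)) := by
        apply Nat.pow_le_pow_right (by norm_num)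
        have h5 : k + M + 6 ≤ 2 ^ (k + M + 6) := Nat.lt_two_pow_self.le
        have h6 : (k + 2) * (M + 1) ≤ 2 ^ (k + M + 6) := by
          have a1 : k + 2 ≤ 2 ^ (k + 2) := Nat.lt_two_pow_self.le
          have a2 : M + 1 ≤ 2 ^ (M + 1) := Nat.lt_two_pow_self.le
          calc (k + 2) * (M + 1) ≤ 2 ^ (k + 2) * 2 ^ (M + 1) := Nat.mul_le_mul a1 a2
            _ = 2 ^ (k + 2 + (M + 1)) := (pow_add 2 (k + 2) (M + 1)).symm
            _ ≤ 2 ^ (k + M + 6) := Nat.pow_le_pow_right (by norm_num) (by omega)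
        have h7 : (k + 2) * d * (d + M) ≤ (k + 2) * (M + 1) * (d * d) := by
          have : d + M ≤ (M + 1) * d := by nlinarith
          calc (k + 2) * d * (d + M) ≤ (k + 2) * d * ((M + 1) * d) := Nat.mul_le_mul_left _ this
            _ = _ := by ring
        have h8 : (k + 2) * (M + 1) * (d * d) ≤ 2 ^ (k + M + 6) * (d * d) :=
          Nat.mul_le_mul_right _ h6
        have h9 : 2 ^ (k + M + 6) * (d + 2) ^ 2 =
          2 ^ (k + M + 6) * (d * d) + 2 ^ (k + M + 6) * (4 * d + 4) := by ring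
        have h10 : 6 * (4 * d + 4) ≤ 2 ^ (k + M + 6) * (4 * d + 4) :=
          Nat.mul_le_mul_right _ (by omega)
        omega
  obtain ⟨S, hS1, hS2, hS3⟩ := phi_bound (d := d) (k := k) (d + M) (by omega)
    (hb.trans ((Nat.pow_le_pow_right (by norm_num) (by omega)).trans
      (cube_corner hk)))
    (hb.trans (cube_corner_compl (by omega) hk))
  refine ⟨S, hS1, hS2, small_of_bound hM1 hM2 ?_⟩
  simpa using hS3

end Pool.Agent.MP_f22ace_co
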