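import Pool.Agent.Lib_MP_f22ace_co.Iso2
import Pool.Agent.Lib_MP_f22ace_co.Phi

set_option autoImplicit false

namespace Pool.Agent.MP_f22ace_co

open Set

variable {d k : ℕ}

/-- A set of lattice points of the cube is spanning. -/
def Spanning (A : Finset (Fin d → Fin (k + 1))) : Prop :=
  affineSpan ℝ (latPt d k '' (A : Set (Fin d → Fin (k + 1)))) = ⊤

lemma Spanning.mono {A B : Finset (Fin d → Fin (k + 1))} (hA : Spanning A) (h : A ⊆ B) :
    Spanning B := by
  unfold Spanning at *
  rw [eq_top_iff, ← hA]
  exact affineSpan_mono _ (image_mono (Finset.coe_subset.2 h))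

lemma spanning_code (P : LatticePolytope d k) : Spanning (code P) := by
  unfold Spanning
  rw [image_code, affineSpan_vertexSet P.2.1.1, P.2.1.2.2]

lemma exists_bPt (z : Fin d → Fin (1 + 1)) : ∃ b, bPt d le_rfl b = z := by
  refine ⟨fun i => decide (z i = 1), ?_⟩
  funext i
  apply Fin.ext
  simp only [bPt]
  have h2 := (z i).2
  rcases Nat.eq_zero_or_pos (z i : ℕ) with h | h
  · have : z i = 0 := Fin.ext h
    rw [this]
    rfl
  · have : z i = 1 := Fin.ext (by
      have : ((1 : Fin (1 + 1)) : ℕ) = 1 := rfl
      omega)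
    rw [this]
    rfl

lemma cube_indep_one (z : Fin d → Fin (1 + 1)) : ∃ f : (Fin d → ℝ) →ₗ[ℝ] ℝ,
      ∀ w : Fin d → Fin (1 + 1), w ≠ z → f (latPt d 1 z) < f (latPt d 1 w) := by
  classical
  have hall : ∀ w : Fin d → Fin (1 + 1), w ∈ Finset.univ.image (bPt d (le_refl 1)) := by
    intro w
    obtain ⟨b, hb⟩ := exists_bPt w
    exact Finset.mem_image.2 ⟨b, Finset.mem_univ _, hb⟩
  obtain ⟨f, hf⟩ := cube_independent (le_refl 1) z (hall z)
  exact ⟨f, fun w hw => hf w (hall w) hw⟩

lemma exists_code_eq (A : Finset (Fin d → Fin (1 + 1))) (hA : Spanning A) :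
    ∃ P : LatticePolytope d 1, code P = A := by
  have key : vertexSet (convexHull ℝ (latPt d 1 '' (A : Set (Fin d → Fin (1 + 1))))) =
        latPt d 1 '' (A : Set (Fin d → Fin (1 + 1))) := by
    apply vertexSet_convexHull_eq ((Finset.finite_toSet A).image _)
    rintro x ⟨z, hz, rfl⟩ hx
    obtain ⟨f, hf⟩ := cube_indep_one z
    have hconv : Convex ℝ {y : Fin d → ℝ | f (latPt d 1 z) < f y} :=
      convex_halfSpace_gt f.isLinear _
    have hsub : latPt d 1 '' (A : Set (Fin d → Fin (1 + 1))) \ {latPt d 1 z} ⊆
        {y : Fin d → ℝ | f (latPt d 1 z) < f y} := by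
      rintro y ⟨⟨w, hw, rfl⟩, hne⟩
      apply hf w
      rintro rfl
      exact hne rfl
    have := convexHull_min hsub hconv hx
    simp only [Set.mem_ofPred_eq, lt_irrefl] at this
  refine ⟨⟨convexHull ℝ (latPt d 1 '' (A : Set (Fin d → Fin (1 + 1)))),
    isLatticePolytope_convexHull ((Finset.finite_toSet A).image _) ?_ hA, ?_⟩, ?_⟩
  · rintro x ⟨z, -, rfl⟩
    exact latPt_isLatticePoint z
  · apply convexHull_min _ box_convex
    rintro x ⟨z, -, rfl⟩
    exact latPt_mem_box z
  · ext z
    simp only [code, Finset.mem_filter, Finset.mem_univ, true_and]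
    rw [key, latPt_injective.mem_set_image]
    simp

open Classical in
lemma adj_of_insert {P Q : LatticePolytope d k} {x : Fin d → Fin (k + 1)} (hx : x ∉ code P)
    (h : code Q = insert x (code P)) : (Lam d k).Adj P Q := by
  have hv : vertexSet Q.1 = insert (latPt d k x) (vertexSet P.1) := by
    rw [← image_code Q, h, Finset.coe_insert, image_insert_eq, image_code]
  refine ⟨?_, Or.inl ⟨latPt d k x, ?_, hv⟩⟩
  · rintro rfl
    rw [h] at hx
    exact hx (Finset.mem_insert_self _ _)
  · apply Subset.antisymm
    · conv_lhs => rw [← Q.2.1.1.convexHull_vertexSet, hv]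
      exact convexHull_mono (insert_subset_insert (vertexSet_subset _))
    · apply convexHull_min _ Q.2.1.1.convex
      rw [insert_subset_iff]
      constructor
      · apply vertexSet_subset
        rw [hv]
        exact mem_insert _ _
      · conv_lhs => rw [← P.2.1.1.convexHull_vertexSet]
        apply convexHull_min _ Q.2.1.1.convex
        refine Subset.trans ?_ (vertexSet_subset _)
        rw [hv]
        exact subset_insert _ _

open Classical in
lemma adj_of_flip {P Q : LatticePolytope d k} {x : Fin d → Fin (k + 1)}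
    (h : code Q = flip x (code P)) : (Lam d k).Adj P Q := by
  by_cases hx : x ∈ code P
  · have h1 : x ∉ code Q := by
      rw [h, mem_flip_self]
      exact not_not.2 hx
    refine (adj_of_insert h1 ?_).symm
    rw [h]
    unfold flip
    rw [if_pos hx, Finset.insert_erase hx]
  · refine adj_of_insert hx ?_
    rw [h]
    unfold flip
    rw [if_neg hx]

open Classical in
/-- At most `d + 1` vertices cannot be deleted. -/
lemma card_bad_le (P : LatticePolytope d k) :
    (Finset.univ.filter (fun x => ¬ Spanning (flip x (code P)))).card ≤ d + 1 := by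
  have hfin := P.2.1.1.finite_vertexSet
  have hspan : affineSpan ℝ (vertexSet P.1) = ⊤ := by
    rw [affineSpan_vertexSet P.2.1.1, P.2.1.2.2]
  obtain ⟨t, htV, htspan, htind⟩ := exists_affineIndependent ℝ (Fin d → ℝ) (vertexSet P.1)
  rw [hspan] at htspan
  have htfin : t.Finite := hfin.subset htV
  have htcard : t.ncard ≤ d + 1 := by
    have := htfin.fintype
    have h1 : Fintype.card t ≤ _ := htind.card_le_finrank_succ
    have h2 : Module.finrank ℝ (vectorSpan ℝ (Set.range ((↑) : t → (Fin d → ℝ)))) ≤ d := by
      refine (Submodule.finrank_le _).trans ?_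
      simp
    rw [← Nat.card_coe_set_eq, Nat.card_eq_fintype_card]
    exact h1.trans (by omega)
  refine le_trans ?_ htcard
  rw [← Set.ncard_coe_finset]
  refine Set.ncard_le_ncard_of_injOn (latPt d k) ?_ latPt_injective.injOn htfin
  · intro x hx
    simp only [Finset.coe_filter, Finset.mem_univ, true_and, Set.mem_ofPred_eq] at hx
    by_contra hxt
    apply hx
    unfold Spanning
    rw [eq_top_iff, ← htspan]
    apply affineSpan_mono
    intro p hp
    have hpV := htV hp
    rw [← image_code] at hpV
    obtain ⟨z, hz, rfl⟩ := hpV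
    refine ⟨z, ?_, rfl⟩
    have hzx : z ≠ x := by
      rintro rfl
      exact hxt hp
    unfold flip
    split_ifs
    · exact Finset.mem_coe.2 (Finset.mem_erase.2 ⟨hzx, hz⟩)
    · exact Finset.mem_coe.2 (Finset.mem_insert_of_mem hz)

open Classical in
lemma card_mem_affine (M : AffineSubspace ℝ (Fin d → ℝ)) (hM : M ≠ ⊤) :
    2 * (Finset.univ.filter (fun z : Fin d → Fin (1 + 1) => latPt d 1 z ∈ M)).card ≤ 2 ^ d := by
  rcases M.eq_bot_or_nonempty with hbot | hne
  · subst hbot
    have : (Finset.univ.filter (fun z : Fin d → Fin (1 + 1) =>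
        latPt d 1 z ∈ (⊥ : AffineSubspace ℝ (Fin d → ℝ)))) = ∅ := by
      ext z
      simp [AffineSubspace.notMem_bot]
    rw [this]
    simp
  · have hdir : M.direction ≠ ⊤ := by
      intro h
      exact hM ((AffineSubspace.direction_eq_top_iff_of_nonempty hne).1 h)
    have hi : ∃ i : Fin d, (Pi.single i (1 : ℝ) : Fin d → ℝ) ∉ M.direction := by
      by_contra hcon
      push Not at hcon
      apply hdir
      rw [Submodule.eq_top_iff']
      intro x
      rw [pi_eq_sum_univ' x]
      apply Submodule.sum_mem
      intro i _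
      apply Submodule.smul_mem
      convert hcon i using 1
    obtain ⟨i, hi⟩ := hi
    let fl : (Fin d → Fin (1 + 1)) → (Fin d → Fin (1 + 1)) := fun z =>
      Function.update z i (z i + 1)
    have hflfl : ∀ z, fl (fl z) = z := by
      intro z
      funext j
      simp only [fl]
      by_cases hj : j = i
      · subst hj
        simp only [Function.update_self]
        have : ∀ a : Fin (1 + 1), a + 1 + 1 = a := by decide
        exact this _
      · simp only [Function.update_of_ne hj]
    set F := Finset.univ.filter (fun z : Fin d → Fin (1 + 1) => latPt d 1 z ∈ M) with hF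
    have hmap : F.card ≤ (Finset.univ \ F).card := by
      apply Finset.card_le_card_of_injOn fl
      · intro z hz
        rw [Finset.mem_coe, hF, Finset.mem_filter] at hz
        rw [Finset.mem_coe, Finset.mem_sdiff, hF, Finset.mem_filter]
        refine ⟨Finset.mem_univ _, fun hcon => hi ?_⟩
        have h1 := AffineSubspace.vsub_mem_direction hcon.2 hz.2
        have h2 : ∀ a : Fin (1 + 1), (((a + 1 : Fin (1 + 1)) : ℕ) : ℝ) - ((a : ℕ) : ℝ) = 1 ∨
            (((a + 1 : Fin (1 + 1)) : ℕ) : ℝ) - ((a : ℕ) : ℝ) = -1 := by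
          intro a
          fin_cases a
          · left
            norm_num
          · right
            norm_num
        have h3 : latPt d 1 (fl z) -ᵥ latPt d 1 z = (((z i + 1 : Fin (1 + 1)) : ℕ) : ℝ) •
            (Pi.single i (1 : ℝ) : Fin d → ℝ) - ((z i : ℕ) : ℝ) • (Pi.single i (1 : ℝ) :
            Fin d → ℝ) := by
          funext j
          simp only [vsub_eq_sub, Pi.sub_apply, latPt, fl, Pi.smul_apply, smul_eq_mul]
          by_cases hj : j = i
          · subst hj
            simp
          · simp [Function.update_of_ne hj, Pi.single_eq_of_ne hj]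
        rw [h3, ← sub_smul] at h1
        rcases h2 (z i) with h | h
        · rw [h, one_smul] at h1
          exact h1
        · rw [h, neg_smul, one_smul] at h1
          simpa using M.direction.neg_mem h1
      · intro z _ w _ h
        rw [← hflfl z, h, hflfl]
    have htot := Finset.card_sdiff_add_card_eq_card (Finset.subset_univ F)
    rw [Finset.card_univ] at htot
    have hc : Fintype.card (Fin d → Fin (1 + 1)) = 2 ^ d := by simp
    omega

open Classical in
/-- There are few non-spanning sets of vertices of the 0/1 cube. -/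
lemma card_nonspanning_le (hd : 1 ≤ d) :
    (Finset.univ.filter (fun A : Finset (Fin d → Fin (1 + 1)) => ¬ Spanning A)).card ≤
      (2 ^ d + 1) ^ d * 2 ^ (2 ^ (d - 1)) := by
  let ℬ := Finset.univ.filter (fun B : Finset (Fin d → Fin (1 + 1)) => B.card ≤ d ∧ ¬ Spanning B)
  let 𝓕 : Finset (Fin d → Fin (1 + 1)) → Finset (Fin d → Fin (1 + 1)) := fun B =>
    Finset.univ.filter (fun z => latPt d 1 z ∈ affineSpan ℝ
      (latPt d 1 '' (B : Set (Fin d → Fin (1 + 1)))))
  have hsub : Finset.univ.filter (fun A : Finset (Fin d → Fin (1 + 1)) => ¬ Spanning A) ⊆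
      ℬ.biUnion (fun B => (𝓕 B).powerset) := by
    intro A hA
    rw [Finset.mem_filter] at hA
    obtain ⟨t, htV, htspan, htind⟩ := exists_affineIndependent ℝ (Fin d → ℝ)
      (latPt d 1 '' (A : Set (Fin d → Fin (1 + 1))))
    have htfin : t.Finite := ((Finset.finite_toSet A).image _).subset htV
    let B := A.filter (fun z => latPt d 1 z ∈ t)
    have hBt : latPt d 1 '' (B : Set (Fin d → Fin (1 + 1))) = t := by
      ext p
      constructor
      · rintro ⟨z, hz, rfl⟩
        rw [Finset.mem_coe, Finset.mem_filter] at hz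
        exact hz.2
      · intro hp
        obtain ⟨z, hz, rfl⟩ := htV hp
        exact ⟨z, Finset.mem_coe.2 (Finset.mem_filter.2 ⟨hz, hp⟩), rfl⟩
    have hBspan : affineSpan ℝ (latPt d 1 '' (B : Set (Fin d → Fin (1 + 1)))) =
        affineSpan ℝ (latPt d 1 '' (A : Set (Fin d → Fin (1 + 1)))) := by
      rw [hBt, htspan]
    have hBns : ¬ Spanning B := by
      unfold Spanning
      rw [hBspan]
      exact hA.2
    have htcard : t.ncard ≤ d := by
      have := htfin.fintype
      have h1 : Fintype.card t ≤ _ := htind.card_le_finrank_succ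
      have h2 : Module.finrank ℝ (vectorSpan ℝ (Set.range ((↑) : t → (Fin d → ℝ)))) ≤ d := by
        refine (Submodule.finrank_le _).trans ?_
        simp
      rw [← Nat.card_coe_set_eq, Nat.card_eq_fintype_card]
      have h3 : Fintype.card t ≤ d + 1 := h1.trans (by omega)
      rcases Nat.lt_or_ge (Fintype.card t) (d + 1) with h | h
      · omega
      · exfalso
        have h4 : Fintype.card t = Module.finrank ℝ (Fin d → ℝ) + 1 := by
          simp only [Module.finrank_fintype_fun_eq_card, Fintype.card_fin]
          omega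
        have h5 := (htind.affineSpan_eq_top_iff_card_eq_finrank_add_one).2 h4
        rw [Subtype.range_coe] at h5
        rw [htspan] at h5
        exact hA.2 h5
    have hBcard : B.card ≤ d := by
      rw [← hBt, Set.ncard_image_of_injective _ latPt_injective, Set.ncard_coe_finset] at htcard
      exact htcard
    rw [Finset.mem_biUnion]
    refine ⟨B, Finset.mem_filter.2 ⟨Finset.mem_univ _, hBcard, hBns⟩, ?_⟩
    rw [Finset.mem_powerset]
    intro z hz
    rw [Finset.mem_filter]
    refine ⟨Finset.mem_univ _, ?_⟩
    rw [hBspan]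
    exact subset_affineSpan ℝ _ ⟨z, hz, rfl⟩
  refine (Finset.card_le_card hsub).trans ?_
  refine (Finset.card_biUnion_le_card_mul ℬ _ (2 ^ (2 ^ (d - 1))) ?_).trans ?_
  · intro B hB
    rw [Finset.card_powerset]
    apply Nat.pow_le_pow_right (by norm_num)
    have h1 := card_mem_affine (affineSpan ℝ (latPt d 1 '' (B : Set (Fin d → Fin (1 + 1)))))
      (Finset.mem_filter.1 hB).2.2
    have h2 : 2 ^ d = 2 * 2 ^ (d - 1) := by
      rw [← pow_succ']
      congr 1
      omega
    simp only [𝓕]
    omega
  · gcongr
    have h1 := card_small_finsets (Fin d → Fin (1 + 1)) d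
    have h2 : Fintype.card (Fin d → Fin (1 + 1)) = 2 ^ d := by simp
    rw [h2] at h1
    refine le_trans (Finset.card_le_card ?_) h1
    intro B hB
    rw [Finset.mem_filter] at hB ⊢
    exact ⟨hB.1, hB.2.1⟩

end Pool.Agent.MP_f22ace_co
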