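import Pool.Agent.Lib_MP_f22ace_co.HOneMain

set_option autoImplicit false

namespace Pool.Agent.MP_f22ace_co

open Set Real

variable {d : ℕ}

lemma cutSize_pos_of_adj {V : Type} [Fintype V] {G : SimpleGraph V} {S : Finset V} {P Q : V}
    (hP : P ∈ S) (hQ : Q ∉ S) (h : G.Adj P Q) : 0 < cutSize G S := by
  classical
  unfold cutSize
  rw [Finset.card_pos]
  exact ⟨(P, Q), by
    rw [SimpleGraph.mk_mem_interedges_iff, Finset.mem_compl]
    exact ⟨hP, hQ, h⟩⟩

/-- The graph `Λ(d,1)` is connected: every proper nonempty set has an outgoing edge. -/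
lemma cutSize_pos_one (S : Finset (LatticePolytope d 1)) (hS : S.Nonempty)
    (hS2 : 2 * S.card ≤ Fintype.card (LatticePolytope d 1)) : 0 < cutSize (Lam d 1) S := by
  classical
  by_contra hcut
  have hno : ∀ P Q : LatticePolytope d 1, (Lam d 1).Adj P Q → (P ∈ S ↔ Q ∈ S) := by
    intro P Q h
    constructor
    · intro hP
      by_contra hQ
      exact hcut (cutSize_pos_of_adj hP hQ h)
    · intro hQ
      by_contra hP
      exact hcut (cutSize_pos_of_adj hQ hP h.symm)
  obtain ⟨P0, hP0⟩ := hS
  have hfull : Spanning (Finset.univ : Finset (Fin d → Fin (1 + 1))) :=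
    (spanning_code P0).mono (Finset.subset_univ _)
  obtain ⟨Pf, hPf⟩ := exists_code_eq _ hfull
  have key : ∀ n : ℕ, ∀ P : LatticePolytope d 1, (Finset.univ \ code P).card = n →
      (P ∈ S ↔ Pf ∈ S) := by
    intro n
    induction n with
    | zero =>
      intro P hP
      rw [Finset.card_eq_zero, Finset.sdiff_eq_empty_iff_subset] at hP
      have : P = Pf := code_injective (by
        rw [hPf]
        exact Finset.univ_subset_iff.1 hP)
      rw [this]
    | succ n ih =>
      intro P hP
      have hne : (Finset.univ \ code P).Nonempty := by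
        rw [← Finset.card_pos, hP]
        omega
      obtain ⟨x, hx⟩ := hne
      have hx' : x ∉ code P := (Finset.mem_sdiff.1 hx).2
      obtain ⟨Q, hQ⟩ := exists_code_eq (insert x (code P))
        ((spanning_code P).mono (Finset.subset_insert _ _))
      rw [hno P Q (adj_of_insert hx' hQ)]
      apply ih
      rw [hQ]
      have h1 : Finset.univ \ insert x (code P) = (Finset.univ \ code P).erase x := by
        ext y
        simp only [Finset.mem_sdiff, Finset.mem_univ, true_and, Finset.mem_insert,
          Finset.mem_erase]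
        tauto
      rw [h1, Finset.card_erase_of_mem hx, hP]
      rfl
  have hall : ∀ P, P ∈ S := fun P => (key _ P rfl).2 ((key _ P0 rfl).1 hP0)
  have : S = Finset.univ := Finset.eq_univ_of_forall hall
  rw [this, Finset.card_univ] at hS2
  have : 0 < Fintype.card (LatticePolytope d 1) := Fintype.card_pos_iff.2 ⟨P0⟩
  omega

/-- `inf_d h(Λ(d,1)) > 0`. -/
theorem h_side_one_pos : ∃ c : ℝ, 0 < c ∧ ∀ d : ℕ, ∀ S : Finset (LatticePolytope d 1),
    S.Nonempty → 2 * S.card ≤ Fintype.card (LatticePolytope d 1) →
    c * S.card ≤ (cutSize (Lam d 1) S : ℝ) := by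
  classical
  obtain ⟨D, hD⟩ := h_side_one_eventually (1 / 2) (by norm_num)
  set M : ℕ := ∑ d ∈ Finset.range D, Fintype.card (LatticePolytope d 1) with hM
  have hM0 : (0 : ℝ) < 2 + M := by positivity
  refine ⟨1 / (2 + M), by positivity, fun d S hS hS2 => ?_⟩
  rcases Nat.lt_or_ge d D with h | h
  · have h1 := cutSize_pos_one S hS hS2
    have h2 : S.card ≤ M := by
      refine (Finset.card_le_univ S).trans ?_
      exact Finset.single_le_sum (f := fun d => Fintype.card (LatticePolytope d 1))
        (fun _ _ => Nat.zero_le _) (Finset.mem_range.2 h)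
    have h3 : (S.card : ℝ) ≤ 2 + M := by
      have : (S.card : ℝ) ≤ M := by exact_mod_cast h2
      linarith
    have h4 : (1 : ℝ) ≤ cutSize (Lam d 1) S := by exact_mod_cast h1
    calc 1 / (2 + (M : ℝ)) * S.card = S.card / (2 + M) := by ring
      _ ≤ 1 := (div_le_one hM0).2 h3
      _ ≤ _ := h4
  · have h1 := hD d h S hS hS2
    have h2 : 1 / (2 + (M : ℝ)) ≤ 1 - 1 / 2 := by
      rw [div_le_iff₀ hM0]
      have : (0 : ℝ) ≤ M := Nat.cast_nonneg _
      linarith
    have h3 : (0 : ℝ) ≤ S.card := Nat.cast_nonneg _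
    nlinarith

open Classical in
lemma card_compl_corner_le : ((corner d 1)ᶜ).card ≤ (corner d 1).card := by
  have hex : ∀ P : LatticePolytope d 1, ∃ Q : LatticePolytope d 1,
      code Q = insert (zeroPt d 1) (code P) := fun P =>
    exists_code_eq _ ((spanning_code P).mono (Finset.subset_insert _ _))
  choose g hg using hex
  apply Finset.card_le_card_of_injOn g
  · intro P _
    rw [Finset.mem_coe, mem_corner_iff, hg]
    exact Finset.mem_insert_self _ _
  · intro P hP Q hQ h
    rw [Finset.mem_coe, Finset.mem_compl, mem_corner_iff] at hP hQ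
    apply code_injective
    have h1 : insert (zeroPt d 1) (code P) = insert (zeroPt d 1) (code Q) := by
      rw [← hg, ← hg, h]
    rw [← Finset.erase_insert hP, h1, Finset.erase_insert hQ]

/-- `h(Λ(d,1)) ≤ 1` for all `d ≥ 2`. -/
theorem h_side_one_le (hd : 2 ≤ d) : ∃ S : Finset (LatticePolytope d 1), S.Nonempty ∧
    2 * S.card ≤ Fintype.card (LatticePolytope d 1) ∧ cutSize (Lam d 1) S ≤ S.card := by
  classical
  refine ⟨(corner d 1)ᶜ, ?_, ?_, ?_⟩
  · rw [← Finset.card_pos]
    have h1 := cube_corner_compl hd (le_refl 1)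
    have h2 : 0 < 2 ^ (2 ^ d - 1 - (d + 1)) := by positivity
    omega
  · have h1 := card_compl_corner_le (d := d)
    have h2 := Finset.card_add_card_compl (corner d 1)
    omega
  · rw [cutSize_compl]
    exact cut_corner_le' d 1

end Pool.Agent.MP_f22ace_co
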