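import Pool.Agent.Lib_MP_f22ace_co.HOne

set_option autoImplicit false

namespace Pool.Agent.MP_f22ace_co

open Set Real

variable {d : ℕ}

open Classical in
lemma outer_le (S : Finset (LatticePolytope d 1)) :
    outer (S.image code) ≤ cutSize (Lam d 1) S +
      ∑ x, ((S.image code).filter (fun A => ¬ Spanning (flip x A))).card := by
  rcases S.eq_empty_or_nonempty with hS | ⟨P0, hP0⟩
  · subst hS
    simp [outer]
  let dec : Finset (Fin d → Fin (1 + 1)) → LatticePolytope d 1 := fun A =>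
    if h : Spanning A then (exists_code_eq A h).choose else P0
  have hdec : ∀ A, Spanning A → code (dec A) = A := by
    intro A hA
    simp only [dec, dif_pos hA]
    exact (exists_code_eq A hA).choose_spec
  have h1 : outer (S.image code) ≤
      ∑ x, (((S.image code).filter (fun A => flip x A ∉ S.image code ∧ Spanning (flip x A))).card +
      ((S.image code).filter (fun A => ¬ Spanning (flip x A))).card) := by
    unfold outer
    apply Finset.sum_le_sum
    intro x _
    refine le_trans (Finset.card_le_card ?_) (Finset.card_union_le _ _)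
    intro A hA
    rw [Finset.mem_filter] at hA
    rw [Finset.mem_union, Finset.mem_filter, Finset.mem_filter]
    by_cases h : Spanning (flip x A)
    · exact Or.inl ⟨hA.1, hA.2, h⟩
    · exact Or.inr ⟨hA.1, h⟩
  rw [Finset.sum_add_distrib] at h1
  refine h1.trans (Nat.add_le_add_right ?_ _)
  rw [← Finset.card_sigma]
  unfold cutSize
  apply Finset.card_le_card_of_injOn (fun q => (dec q.2, dec (flip q.1 q.2)))
  · rintro ⟨x, A⟩ h
    rw [Finset.mem_coe, Finset.mem_sigma, Finset.mem_filter, Finset.mem_image] at h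
    obtain ⟨-, ⟨P, hP, hPA⟩, hA2, hA3⟩ := h
    simp only at hPA hA2 hA3
    have hspA : Spanning A := hPA ▸ spanning_code P
    have e1 : dec A = P := code_injective (by rw [hdec A hspA, hPA])
    have e2 : code (dec (flip x A)) = flip x A := hdec _ hA3
    rw [Finset.mem_coe, SimpleGraph.mk_mem_interedges_iff]
    refine ⟨?_, ?_, ?_⟩
    · simp only
      rw [e1]
      exact hP
    · simp only
      rw [Finset.mem_compl]
      intro hcon
      apply hA2
      rw [Finset.mem_image]
      exact ⟨_, hcon, e2⟩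
    · simp only
      apply adj_of_flip (x := x)
      rw [e2, hdec A hspA]
  · rintro ⟨x, A⟩ h ⟨y, B⟩ h' heq
    rw [Finset.mem_coe, Finset.mem_sigma, Finset.mem_filter, Finset.mem_image] at h h'
    obtain ⟨-, ⟨P, hP, hPA⟩, hA2, hA3⟩ := h
    obtain ⟨-, ⟨Q, hQ, hQB⟩, hB2, hB3⟩ := h'
    simp only at hPA hA2 hA3 hQB hB2 hB3 heq
    have hspA : Spanning A := hPA ▸ spanning_code P
    have hspB : Spanning B := hQB ▸ spanning_code Q
    have e1 := congrArg (fun r => code (Prod.fst r)) heq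
    have e2 := congrArg (fun r => code (Prod.snd r)) heq
    simp only at e1 e2
    rw [hdec A hspA, hdec B hspB] at e1
    rw [hdec _ hA3, hdec _ hB3] at e2
    subst e1
    have := flip_left_injective e2
    subst this
    rfl

open Classical in
lemma sum_bad_le (S : Finset (LatticePolytope d 1)) :
    ∑ x, ((S.image code).filter (fun A => ¬ Spanning (flip x A))).card ≤ (d + 1) * S.card := by
  have h1 : ∑ x, ((S.image code).filter (fun A => ¬ Spanning (flip x A))).card =
      ∑ A ∈ S.image code, (Finset.univ.filter (fun x => ¬ Spanning (flip x A))).card := by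
    simp only [Finset.card_filter]
    exact Finset.sum_comm
  rw [h1, Finset.sum_image (fun P _ Q _ h => code_injective h)]
  calc ∑ P ∈ S, (Finset.univ.filter (fun x => ¬ Spanning (flip x (code P)))).card
      ≤ ∑ P ∈ S, (d + 1) := Finset.sum_le_sum (fun P _ => card_bad_le P)
    _ = (d + 1) * S.card := by rw [Finset.sum_const, smul_eq_mul, mul_comm]

open Classical in
lemma sum_bad_le' (hd : 1 ≤ d) (S : Finset (LatticePolytope d 1)) :
    ∑ x, ((S.image code).filter (fun A => ¬ Spanning (flip x A))).card ≤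
      2 ^ d * ((2 ^ d + 1) ^ d * 2 ^ (2 ^ (d - 1))) := by
  have h1 : ∀ x : Fin d → Fin (1 + 1),
      ((S.image code).filter (fun A => ¬ Spanning (flip x A))).card ≤
      (2 ^ d + 1) ^ d * 2 ^ (2 ^ (d - 1)) := by
    intro x
    refine le_trans ?_ (card_nonspanning_le hd)
    apply Finset.card_le_card_of_injOn (flip x)
    · intro A hA
      rw [Finset.mem_coe, Finset.mem_filter] at hA
      rw [Finset.mem_coe, Finset.mem_filter]
      exact ⟨Finset.mem_univ _, hA.2⟩
    · exact (flip_injective x).injOn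
  calc ∑ x, ((S.image code).filter (fun A => ¬ Spanning (flip x A))).card
      ≤ ∑ x : Fin d → Fin (1 + 1), (2 ^ d + 1) ^ d * 2 ^ (2 ^ (d - 1)) :=
        Finset.sum_le_sum (fun x _ => h1 x)
    _ = _ := by
        rw [Finset.sum_const, Finset.card_univ, smul_eq_mul]
        simp

lemma card_image_code (S : Finset (LatticePolytope d 1)) [DecidableEq (Finset (Fin d → Fin (1 + 1)))] :
    (S.image code).card = S.card := Finset.card_image_of_injective _ code_injective

open Classical in
lemma card_polytopes_one_le (d : ℕ) : Fintype.card (LatticePolytope d 1) ≤ 2 ^ (2 ^ d) := by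
  have := Fintype.card_le_of_injective (code (d := d) (k := 1)) code_injective
  simpa using this

/-- asymptotic comparison -/
lemma eventually_small (c : ℕ) : ∃ D : ℕ, 1 ≤ D ∧ ∀ d ≥ D,
    2 ^ c * (2 ^ d * ((2 ^ d + 1) ^ d * 2 ^ (2 ^ (d - 1)))) ≤ 2 ^ (2 ^ d - (d + 2)) := by
  obtain ⟨T, hT⟩ := eventually_pow_le 2 (c + 4)
  refine ⟨T + 1, by omega, fun d hd => ?_⟩
  have h0 := hT d (by omega)
  have h1 : (2 ^ d + 1) ^ d ≤ 2 ^ ((d + 1) * d) := by
    rw [pow_mul]
    apply Nat.pow_le_pow_left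
    have : 1 ≤ 2 ^ d := Nat.one_le_two_pow
    rw [pow_succ]
    omega
  have h2 : 2 ^ d = 2 * 2 ^ (d - 1) := by
    rw [← pow_succ']
    congr 1
    omega
  calc 2 ^ c * (2 ^ d * ((2 ^ d + 1) ^ d * 2 ^ (2 ^ (d - 1))))
      ≤ 2 ^ c * (2 ^ d * (2 ^ ((d + 1) * d) * 2 ^ (2 ^ (d - 1)))) := by gcongr
    _ = 2 ^ (c + (d + ((d + 1) * d + 2 ^ (d - 1)))) := by
      rw [← pow_add, ← pow_add, ← pow_add]
    _ ≤ 2 ^ (2 ^ d - (d + 2)) := by
      apply Nat.pow_le_pow_right (by norm_num)
      have h3 : c + 4 ≤ 2 ^ (c + 4) := Nat.lt_two_pow_self.le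
      have h4 : 16 ≤ 2 ^ (c + 4) := by
        calc 16 = 2 ^ 4 := by norm_num
          _ ≤ 2 ^ (c + 4) := Nat.pow_le_pow_right (by norm_num) (by omega)
      have h5 : (c + 4 + 16) * (d + 2) ^ 2 ≤ 2 * (2 ^ (c + 4) * (d + 2) ^ 2) := by
        nlinarith [Nat.zero_le ((d + 2) ^ 2)]
      have h6 : (c + 4 + 16) * (d + 2) ^ 2 ≤ 2 * 2 ^ d := h5.trans (by omega)
      have h7 : 2 * c + 2 * (d + (d + 1) * d + (d + 2)) + 2 * 2 ^ (d - 1) ≤ 2 * 2 ^ d := by
        have : 2 * 2 ^ (d - 1) = 2 ^ d := h2.symm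
        have h8 : 2 * c + 2 * (d + (d + 1) * d + (d + 2)) ≤ 2 ^ d := by
          have k0 : 4 ≤ (d + 2) ^ 2 := by nlinarith
          have k1 : c * 4 ≤ c * (d + 2) ^ 2 := Nat.mul_le_mul_left c k0
          have k2 : d + (d + 1) * d + (d + 2) ≤ (d + 2) ^ 2 := by nlinarith
          have k3 : (c + 4 + 16) * (d + 2) ^ 2 = c * (d + 2) ^ 2 + 20 * (d + 2) ^ 2 := by ring
          omega
        omega
      have h9 : d + 2 ≤ 2 ^ d := by nlinarith
      generalize hE : (d + 1) * d = E at *
      omega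

theorem h_side_one_eventually (ε : ℝ) (hε : 0 < ε) :
    ∃ D : ℕ, ∀ d ≥ D, ∀ S : Finset (LatticePolytope d 1), S.Nonempty →
      2 * S.card ≤ Fintype.card (LatticePolytope d 1) →
      (1 - ε) * S.card ≤ (cutSize (Lam d 1) S : ℝ) := by
  classical
  obtain ⟨c, hc⟩ := pow_unbounded_of_one_lt (1 / ε) (show (1 : ℝ) < 2 by norm_num)
  obtain ⟨D, hD1, hD⟩ := eventually_small c
  refine ⟨D + 4, fun d hd S hS hS2 => ?_⟩
  have hd1 : 1 ≤ d := by omega
  have hiso := outer_ge (S.image code)
  rw [card_image_code] at hiso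
  have hcard : Fintype.card (Fin d → Fin (1 + 1)) = 2 ^ d := by simp
  rw [hcard] at hiso
  have hout := outer_le S
  have hbad := sum_bad_le S
  have hbad' := sum_bad_le' hd1 S
  have hVle := card_polytopes_one_le d
  set s := S.card with hs
  have hs1 : 1 ≤ s := Finset.card_pos.2 hS
  have hs1' : (1 : ℝ) ≤ s := by exact_mod_cast hs1
  have hdexp : d + 2 ≤ 2 ^ d := by
    have : ∀ n : ℕ, n + 4 + 2 ≤ 2 ^ (n + 4) := by
      intro n
      induction n with
      | zero => norm_num
      | succ n ih =>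
        rw [show n + 1 + 4 = (n + 4) + 1 by ring, pow_succ]
        omega
    obtain ⟨n, rfl⟩ := Nat.exists_eq_add_of_le' (show 4 ≤ d by omega)
    exact this n
  rcases Nat.lt_or_ge (2 ^ (2 ^ d - (d + 2))) s with hcase | hcase
  · -- large sets
    have hlog : logb 2 (s : ℝ) ≤ 2 ^ d - 1 := by
      rw [logb_le_iff_le_rpow (by norm_num) (by linarith)]
      have h1 : 2 * s ≤ 2 ^ (2 ^ d) := hS2.trans hVle
      have h2 : (2 : ℝ) * s ≤ 2 ^ (2 ^ d) := by exact_mod_cast h1
      have h3 : (2 : ℝ) ^ ((2 : ℝ) ^ d - 1) = 2 ^ (2 ^ d) / 2 := by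
        rw [rpow_sub (by norm_num), rpow_one]
        congr 1
        rw [← rpow_natCast 2 (2 ^ d)]
        push_cast
        rfl
      rw [h3]
      linarith
    have h4 : (s : ℝ) ≤ outer (S.image code) := by
      refine le_trans ?_ hiso
      push_cast
      nlinarith
    have h5 : (2 ^ c * (2 ^ d * ((2 ^ d + 1) ^ d * 2 ^ (2 ^ (d - 1)))) : ℕ) ≤ s :=
      (hD d (by omega)).trans hcase.le
    have h6 : ((2 ^ c : ℕ) : ℝ) * ((2 ^ d * ((2 ^ d + 1) ^ d * 2 ^ (2 ^ (d - 1))) : ℕ) : ℝ) ≤ s := by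
      exact_mod_cast h5
    have h7 : (outer (S.image code) : ℝ) ≤ cutSize (Lam d 1) S +
        ((2 ^ d * ((2 ^ d + 1) ^ d * 2 ^ (2 ^ (d - 1))) : ℕ) : ℝ) := by
      exact_mod_cast hout.trans (Nat.add_le_add_left hbad' _)
    have h8 : ((2 ^ d * ((2 ^ d + 1) ^ d * 2 ^ (2 ^ (d - 1))) : ℕ) : ℝ) ≤ ε * s := by
      set B := ((2 ^ d * ((2 ^ d + 1) ^ d * 2 ^ (2 ^ (d - 1))) : ℕ) : ℝ) with hB
      have hB0 : 0 ≤ B := Nat.cast_nonneg _
      have h9 : 1 ≤ ε * 2 ^ c := by
        rw [div_lt_iff₀ hε] at hc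
        linarith
      push_cast at h6
      calc B ≤ (ε * 2 ^ c) * B := le_mul_of_one_le_left hB0 h9
        _ = ε * (2 ^ c * B) := by ring
        _ ≤ ε * s := by gcongr
    linarith
  · -- small sets
    have hlog : logb 2 (s : ℝ) ≤ 2 ^ d - (d + 2) := by
      rw [logb_le_iff_le_rpow (by norm_num) (by linarith)]
      have h1 : (s : ℝ) ≤ 2 ^ (2 ^ d - (d + 2)) := by exact_mod_cast hcase
      refine h1.trans (le_of_eq ?_)
      rw [← rpow_natCast]
      congr 1
      rw [Nat.cast_sub hdexp]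
      push_cast
      ring
    have h4 : (s : ℝ) * (d + 2) ≤ outer (S.image code) := by
      refine le_trans ?_ hiso
      push_cast
      nlinarith
    have h7 : (outer (S.image code) : ℝ) ≤ cutSize (Lam d 1) S + (d + 1) * s := by
      exact_mod_cast hout.trans (Nat.add_le_add_left hbad _)
    nlinarith

end Pool.Agent.MP_f22ace_co
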