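import Pool.Agent.Lib_MP_f22ace_co.Growth
import Pool.Agent.Lib_MP_f22ace_co.Phi

set_option autoImplicit false

namespace Pool.Agent.MP_f22ace_co

open Set

variable {k : ℕ}

/-- The number of lattice polygons in the square. -/
noncomputable def numP (k : ℕ) : ℕ := Fintype.card (LatticePolytope 2 k)

/-- The number of lattice polygons in the square touching the left side. -/
noncomputable def numL (k : ℕ) : ℕ := (left k).card

lemma numL_le_of_add (k J : ℕ) : numL k ≤ numL (k + J) := by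
  classical
  exact (card_left_le (k := k + J) (k' := k) (J := J) rfl).trans
    (Finset.card_le_card Finset.inter_subset_left)

lemma numL_mono {k k' : ℕ} (h : k ≤ k') : numL k ≤ numL k' := by
  obtain ⟨J, rfl⟩ := Nat.exists_eq_add_of_le h
  exact numL_le_of_add k J

lemma numL_le_numP (k : ℕ) : numL k ≤ numP k := by
  classical
  exact Finset.card_le_univ _

lemma numP_mono {k k' : ℕ} (h : k ≤ k') : numP k ≤ numP k' := by
  classical
  obtain ⟨J, rfl⟩ := Nat.exists_eq_add_of_le h
  rcases Nat.eq_zero_or_pos J with hJ | hJ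
  · subst hJ
    exact le_refl _
  · exact (card_compl_left_ge (k := k + J) (k' := k) (J := J) rfl hJ).trans
      (Finset.card_le_univ _)

lemma one_le_numL (hk : 1 ≤ k) : 1 ≤ numL k := by
  classical
  have h1 := cube_corner (d := 2) hk
  have h2 : (corner 2 k).card ≤ (left k).card := by
    apply Finset.card_le_card
    intro P hP
    rw [mem_corner] at hP
    exact mem_left.2 ⟨0, hP, rfl⟩
  have h3 : 1 ≤ 2 ^ (2 ^ 2 - (2 + 1)) := Nat.one_le_two_pow
  exact (h3.trans h1).trans h2

/-- The pigeonhole step: the growth of the counts is slow at infinitely many places. -/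
lemma exists_slow (J K : ℕ) (hK : 1 ≤ K) (δ : ℝ) (hδ : 0 < δ) :
    ∃ k' ≥ K, ((numP (k' + J) * numL (k' + J) : ℕ) : ℝ) ≤
      (1 + δ) * ((numP k' * numL k' : ℕ) : ℝ) := by
  by_contra hcon
  push Not at hcon
  set F : ℕ → ℕ := fun k => numP k * numL k with hF
  have hFmono : ∀ {a b : ℕ}, a ≤ b → F a ≤ F b := fun h =>
    Nat.mul_le_mul (numP_mono h) (numL_mono h)
  have hFK : 1 ≤ F K := by
    have h1 := one_le_numL hK
    have h2 := h1.trans (numL_le_numP K)
    exact Nat.mul_le_mul h2 h1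
  have hiter : ∀ i : ℕ, (1 + δ) ^ i ≤ (F (K + i * J) : ℝ) := by
    intro i
    induction i with
    | zero => simpa using (by exact_mod_cast hFK : (1 : ℝ) ≤ F K)
    | succ i ih =>
      have h1 := hcon (K + i * J) (by omega)
      have h2 : K + (i + 1) * J = K + i * J + J := by ring
      rw [h2]
      calc (1 + δ) ^ (i + 1) = (1 + δ) * (1 + δ) ^ i := by ring
        _ ≤ (1 + δ) * (F (K + i * J) : ℝ) := by gcongr
        _ ≤ _ := h1.le
  obtain ⟨q, hq⟩ := pow_unbounded_of_one_lt (2 : ℝ) (show (1 : ℝ) < 1 + δ by linarith)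
  obtain ⟨T, hT⟩ := eventually_pow_le 1 (K + 289 * (J * q))
  set s := T + 1 with hs
  have hs1 := hT s (by omega)
  have hs2 : (K + 289 * (J * q)) * (s + 1) ≤ 2 ^ s := by
    refine le_trans ?_ hs1
    rw [pow_one]
    exact Nat.mul_le_mul Nat.lt_two_pow_self.le (by omega)
  have hs3 : K + q * (288 * s * 4 ^ s + 1) * J ≤ 8 ^ s := by
    have h4 : 1 ≤ 4 ^ s := Nat.one_le_pow _ _ (by norm_num)
    calc K + q * (288 * s * 4 ^ s + 1) * J
        ≤ K * 4 ^ s + q * (288 * s * 4 ^ s + 4 ^ s) * J := by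
          gcongr
          nlinarith
      _ = 4 ^ s * (K + J * q * (288 * s + 1)) := by ring
      _ ≤ 4 ^ s * ((K + 289 * (J * q)) * (s + 1)) := by
          gcongr
          have : J * q * (288 * s + 1) ≤ 289 * (J * q) * (s + 1) := by nlinarith [Nat.zero_le (J * q)]
          nlinarith
      _ ≤ 4 ^ s * 2 ^ s := by gcongr
      _ = 8 ^ s := by
          rw [← mul_pow]
          norm_num
  have hlow : (2 : ℝ) ^ (288 * s * 4 ^ s + 1) ≤ F (8 ^ s) := by
    calc (2 : ℝ) ^ (288 * s * 4 ^ s + 1) ≤ ((1 + δ) ^ q) ^ (288 * s * 4 ^ s + 1) := by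
          gcongr
      _ = (1 + δ) ^ (q * (288 * s * 4 ^ s + 1)) := by rw [← pow_mul]
      _ ≤ (F (K + q * (288 * s * 4 ^ s + 1) * J) : ℝ) := hiter _
      _ ≤ F (8 ^ s) := by exact_mod_cast hFmono hs3
  have hup : F (8 ^ s) ≤ 2 ^ (288 * s * 4 ^ s) := by
    have h8 : 8 ^ s = 2 ^ s * 2 ^ s * 2 ^ s := by
      rw [← mul_pow, ← mul_pow]
      norm_num
    have h1 := card_polygons_le (2 ^ s) Nat.one_le_two_pow
    have h2 : 2 ^ s * 2 ^ s = 4 ^ s := by
      rw [← mul_pow]
      norm_num
    rw [← h8, h2] at h1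
    have h3 : (8 ^ s + 1) ^ 2 + 1 ≤ 2 ^ (9 * s) := by
      have h4 : 2 ^ (9 * s) = 8 ^ s * 8 ^ s * 8 ^ s := by
        rw [← mul_pow, ← mul_pow, pow_mul]
        norm_num
      rw [h4]
      have h5 : 8 ≤ 8 ^ s := by
        calc 8 = 8 ^ 1 := by norm_num
          _ ≤ 8 ^ s := Nat.pow_le_pow_right (by norm_num) (by omega)
      nlinarith [Nat.mul_le_mul h5 h5]
    have h6 : numP (8 ^ s) ≤ 2 ^ (144 * s * 4 ^ s) := by
      calc numP (8 ^ s) ≤ ((8 ^ s + 1) ^ 2 + 1) ^ (16 * 4 ^ s) := h1
        _ ≤ (2 ^ (9 * s)) ^ (16 * 4 ^ s) := Nat.pow_le_pow_left h3 _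
        _ = 2 ^ (144 * s * 4 ^ s) := by
          rw [← pow_mul]
          congr 1
          ring
    calc F (8 ^ s) ≤ numP (8 ^ s) * numP (8 ^ s) := Nat.mul_le_mul_left _ (numL_le_numP _)
      _ ≤ 2 ^ (144 * s * 4 ^ s) * 2 ^ (144 * s * 4 ^ s) := Nat.mul_le_mul h6 h6
      _ = 2 ^ (288 * s * 4 ^ s) := by
        rw [← pow_add]
        congr 1
        ring
  have hup' : (F (8 ^ s) : ℝ) ≤ 2 ^ (288 * s * 4 ^ s) := by exact_mod_cast hup
  have hlt : (2 : ℝ) ^ (288 * s * 4 ^ s) < 2 ^ (288 * s * 4 ^ s + 1) :=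
    pow_lt_pow_right₀ (by norm_num) (Nat.lt_succ_self _)
  linarith

theorem h_dim_two (ε : ℝ) (hε : 0 < ε) (K : ℕ) :
    ∃ k ≥ K, ∃ S : Finset (LatticePolytope 2 k), S.Nonempty ∧
      2 * S.card ≤ Fintype.card (LatticePolytope 2 k) ∧
      (cutSize (Lam 2 k) S : ℝ) ≤ ε * S.card := by
  classical
  obtain ⟨J, hJ1, hJ2⟩ := exists_small ε hε
  set δ := min 1 (ε / 2) with hδ
  have hδ0 : 0 < δ := lt_min one_pos (by linarith)
  obtain ⟨k', hk', hslow⟩ := exists_slow J (K + 1) (by omega) δ hδ0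
  refine ⟨k' + J, by omega, left (k' + J), ?_, ?_, ?_⟩
  · rw [← Finset.card_pos]
    exact one_le_numL (by omega)
  all_goals
    have hP : (numP k' : ℝ) ≤ numP (k' + J) := by exact_mod_cast numP_mono (by omega)
    have hL : (numL k' : ℝ) ≤ numL (k' + J) := by exact_mod_cast numL_mono (by omega)
    have hL1 : (1 : ℝ) ≤ numL k' := by exact_mod_cast one_le_numL (by omega)
    have hP1 : (1 : ℝ) ≤ numP k' := hL1.trans (by exact_mod_cast numL_le_numP k')
    push_cast at hslow
  · have hP2 : (numP (k' + J) : ℝ) ≤ (1 + δ) * numP k' := by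
      have h1 : (numP (k' + J) : ℝ) * numL k' ≤ ((1 + δ) * numP k') * numL k' := by
        calc (numP (k' + J) : ℝ) * numL k' ≤ numP (k' + J) * numL (k' + J) := by gcongr
          _ ≤ _ := hslow
          _ = _ := by ring
      exact le_of_mul_le_mul_right h1 (by linarith)
    have h3 : (numP (k' + J) : ℝ) ≤ 2 * numP k' := by
      have : δ ≤ 1 := min_le_left _ _
      nlinarith
    have h3' : numP (k' + J) ≤ 2 * numP k' := by exact_mod_cast h3
    have h4 : numP k' ≤ ((left (k' + J))ᶜ).card := card_compl_left_ge rfl hJ1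
    have h5 := Finset.card_add_card_compl (left (k' + J))
    have h6 : numP (k' + J) = Fintype.card (LatticePolytope 2 (k' + J)) := rfl
    omega
  · have hL2 : (numL (k' + J) : ℝ) ≤ (1 + δ) * numL k' := by
      have h1 : (numL (k' + J) : ℝ) * numP k' ≤ ((1 + δ) * numL k') * numP k' := by
        calc (numL (k' + J) : ℝ) * numP k' ≤ numL (k' + J) * numP (k' + J) := by gcongr
          _ = numP (k' + J) * numL (k' + J) := by ring
          _ ≤ _ := hslow
          _ = _ := by ring
      exact le_of_mul_le_mul_right h1 (by linarith)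
    have c1 := cut_left_le (k' + J)
    have c2 := card_low_le (k' + J) J
    have c3 : numL k' ≤ (left (k' + J) ∩ low (k' + J) J).card := card_left_le rfl
    have hsub : left1 (k' + J) ⊆ left (k' + J) := by
      intro P hP
      obtain ⟨x, hx, hx0, -⟩ := mem_left1.1 hP
      exact mem_left.2 ⟨x, hx, hx0⟩
    have c4 : (left1 (k' + J)).card ≤ (left1 (k' + J) ∩ low (k' + J) J).card +
        (left (k' + J) \ low (k' + J) J).card := by
      rw [← Finset.card_inter_add_card_sdiff (left1 (k' + J)) (low (k' + J) J)]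
      gcongr
    have c5 := Finset.card_inter_add_card_sdiff (left (k' + J)) (low (k' + J) J)
    have d1 : (cutSize (Lam 2 (k' + J)) (left (k' + J)) : ℝ) ≤
        (left1 (k' + J) ∩ low (k' + J) J).card + (numL (k' + J) - numL k') := by
      have e1 : cutSize (Lam 2 (k' + J)) (left (k' + J)) + numL k' ≤
          (left1 (k' + J) ∩ low (k' + J) J).card + numL (k' + J) := by
        have : numL (k' + J) = (left (k' + J)).card := rfl
        omega
      have e2 : (cutSize (Lam 2 (k' + J)) (left (k' + J)) : ℝ) + numL k' ≤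
          (left1 (k' + J) ∩ low (k' + J) J).card + numL (k' + J) := by exact_mod_cast e1
      linarith
    have d2 : ((left1 (k' + J) ∩ low (k' + J) J).card : ℝ) * J ≤ numL (k' + J) := by
      exact_mod_cast c2
    have hJpos : (0 : ℝ) < J := by exact_mod_cast hJ1
    have d3 : ((left1 (k' + J) ∩ low (k' + J) J).card : ℝ) ≤ ε / 2 * numL (k' + J) := by
      have h1 : ((left1 (k' + J) ∩ low (k' + J) J).card : ℝ) * J ≤
          (ε / 2 * numL (k' + J)) * J := by
        have : (0 : ℝ) ≤ numL (k' + J) := Nat.cast_nonneg _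
        nlinarith
      exact le_of_mul_le_mul_right h1 hJpos
    have d4 : (numL (k' + J) : ℝ) - numL k' ≤ ε / 2 * numL (k' + J) := by
      have h1 : δ ≤ ε / 2 := min_le_right _ _
      nlinarith
    have d5 : (numL (k' + J) : ℝ) = ((left (k' + J)).card : ℝ) := rfl
    rw [← d5]
    linarith

end Pool.Agent.MP_f22ace_co
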