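import Mathlib

set_option autoImplicit false

namespace Pool.Agent.MP_f22ace_co

open Real

lemma phi_aux {a b : ℝ} (ha : 0 < a) (hab : a ≤ b) :
    a * logb 2 a + b * logb 2 b + 2 * a ≤ (a + b) * logb 2 (a + b) := by
  have hb : 0 < b := lt_of_lt_of_le ha hab
  have hs : 0 < a + b := by linarith
  have h1 : 1 ≤ logb 2 (a + b) - logb 2 a := by
    rw [← logb_div hs.ne' ha.ne', le_logb_iff_rpow_le (by norm_num) (by positivity),
      rpow_one, le_div_iff₀ ha]
    linarith
  have h2 : a / b ≤ logb 2 (a + b) - logb 2 b := by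
    rw [← logb_div hs.ne' hb.ne', le_logb_iff_rpow_le (by norm_num) (by positivity)]
    have := rpow_one_add_le_one_add_mul_self (s := 1) (by norm_num) (p := a / b) (by positivity)
      ((div_le_one hb).2 hab)
    calc (2 : ℝ) ^ (a / b) = (1 + 1) ^ (a / b) := by norm_num
      _ ≤ 1 + a / b * 1 := this
      _ = (a + b) / b := by
        field_simp
        ring
  have h3 : a ≤ b * (logb 2 (a + b) - logb 2 b) := by
    calc a = b * (a / b) := by field_simp
      _ ≤ _ := by gcongr
  nlinarith

lemma phi_super (a b : ℕ) : (a : ℝ) * logb 2 a + b * logb 2 b + 2 * (min a b : ℕ) ≤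
    ((a + b : ℕ) : ℝ) * logb 2 ((a + b : ℕ) : ℝ) := by
  rcases Nat.eq_zero_or_pos a with ha | ha
  · subst ha
    simp
  rcases Nat.eq_zero_or_pos b with hb | hb
  · subst hb
    simp
  push_cast
  have ha' : (0 : ℝ) < a := by exact_mod_cast ha
  have hb' : (0 : ℝ) < b := by exact_mod_cast hb
  rcases le_total a b with h | h
  · have h' : (a : ℝ) ≤ b := by exact_mod_cast h
    rw [min_eq_left h']
    exact phi_aux ha' h'
  · have h' : (b : ℝ) ≤ a := by exact_mod_cast h
    rw [min_eq_right h']
    have := phi_aux hb' h'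
    rw [add_comm (b : ℝ) a] at this
    linarith

variable {α : Type} [DecidableEq α]

/-- The number of edges, in the directions from `X`, spanned by the family `𝒜`. -/
def internal (X : Finset α) (𝒜 : Finset (Finset α)) : ℕ :=
  ∑ x ∈ X, (𝒜.filter (fun A => x ∉ A ∧ insert x A ∈ 𝒜)).card

lemma internal_insert_le (X : Finset α) (a : α) (ha : a ∉ X) (𝒜 : Finset (Finset α)) :
    internal (insert a X) 𝒜 ≤ internal X (𝒜.nonMemberSubfamily a) +
      internal X (𝒜.memberSubfamily a) +
      min (𝒜.memberSubfamily a).card (𝒜.nonMemberSubfamily a).card := by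
  unfold internal
  rw [Finset.sum_insert ha]
  have h1 : (𝒜.filter (fun A => a ∉ A ∧ insert a A ∈ 𝒜)).card ≤
      min (𝒜.memberSubfamily a).card (𝒜.nonMemberSubfamily a).card := by
    apply le_min
    · apply Finset.card_le_card
      intro A hA
      rw [Finset.mem_filter] at hA
      rw [Finset.mem_memberSubfamily]
      exact ⟨hA.2.2, hA.2.1⟩
    · apply Finset.card_le_card
      intro A hA
      rw [Finset.mem_filter] at hA
      rw [Finset.mem_nonMemberSubfamily]
      exact ⟨hA.1, hA.2.1⟩
  have h2 : ∀ x ∈ X, (𝒜.filter (fun A => x ∉ A ∧ insert x A ∈ 𝒜)).card ≤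
      ((𝒜.nonMemberSubfamily a).filter
        (fun A => x ∉ A ∧ insert x A ∈ 𝒜.nonMemberSubfamily a)).card +
      ((𝒜.memberSubfamily a).filter
        (fun A => x ∉ A ∧ insert x A ∈ 𝒜.memberSubfamily a)).card := by
    intro x hx
    have hxa : x ≠ a := fun h => ha (h ▸ hx)
    rw [← Finset.card_filter_add_card_filter_not (s := 𝒜.filter (fun A => x ∉ A ∧ insert x A ∈ 𝒜))
      (fun A => a ∉ A)]
    apply Nat.add_le_add
    · apply Finset.card_le_card
      intro A hA
      simp only [Finset.mem_filter, Finset.mem_nonMemberSubfamily, Finset.mem_insert] at hA ⊢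
      refine ⟨⟨hA.1.1, hA.2⟩, hA.1.2.1, hA.1.2.2, ?_⟩
      rintro (h | h)
      · exact hxa h.symm
      · exact hA.2 h
    · apply Finset.card_le_card_of_injOn (fun A => A.erase a)
      · intro A hA
        simp only [Finset.coe_filter, Finset.mem_filter, not_not, Set.mem_ofPred_eq] at hA
        simp only [Finset.coe_filter, Finset.mem_memberSubfamily, Set.mem_ofPred_eq]
        refine ⟨⟨by rw [Finset.insert_erase hA.2]; exact hA.1.1, Finset.notMem_erase _ _⟩, ?_, ?_, ?_⟩
        · intro h
          exact hA.1.2.1 (Finset.mem_of_mem_erase h)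
        · rw [Finset.insert_comm, Finset.insert_erase hA.2]
          exact hA.1.2.2
        · intro h
          rw [Finset.mem_insert] at h
          rcases h with h | h
          · exact hxa h.symm
          · exact Finset.notMem_erase _ _ h
      · intro A hA B hB hAB
        simp only [Finset.coe_filter, Finset.mem_filter, not_not, Set.mem_ofPred_eq] at hA hB
        have : insert a (A.erase a) = insert a (B.erase a) := by
          simp only at hAB
          rw [hAB]
        rwa [Finset.insert_erase hA.2, Finset.insert_erase hB.2] at this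
  have h3 := Finset.sum_le_sum h2
  rw [Finset.sum_add_distrib] at h3
  omega

/-- Edge-isoperimetric inequality in the hypercube. -/
lemma internal_le (X : Finset α) : ∀ 𝒜 : Finset (Finset α),
    2 * (internal X 𝒜 : ℝ) ≤ (𝒜.card : ℝ) * logb 2 (𝒜.card : ℝ) := by
  induction X using Finset.induction_on with
  | empty =>
    intro 𝒜
    simp only [internal, Finset.sum_empty, Nat.cast_zero, mul_zero]
    rcases Nat.eq_zero_or_pos 𝒜.card with h | h
    · rw [h]
      simp
    · apply mul_nonneg (Nat.cast_nonneg _)
      apply logb_nonneg (by norm_num)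
      exact_mod_cast h
  | insert a X ha ih =>
    intro 𝒜
    have h1 := internal_insert_le X a ha 𝒜
    have h2 := ih (𝒜.nonMemberSubfamily a)
    have h3 := ih (𝒜.memberSubfamily a)
    have h4 := phi_super (𝒜.memberSubfamily a).card (𝒜.nonMemberSubfamily a).card
    rw [Finset.card_memberSubfamily_add_card_nonMemberSubfamily] at h4
    have h5 : (internal (insert a X) 𝒜 : ℝ) ≤ (internal X (𝒜.nonMemberSubfamily a) : ℝ) +
      (internal X (𝒜.memberSubfamily a) : ℝ) +
      ((min (𝒜.memberSubfamily a).card (𝒜.nonMemberSubfamily a).card : ℕ) : ℝ) := by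
      exact_mod_cast h1
    linarith

end Pool.Agent.MP_f22ace_co
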