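import Pool.Agent.Lib_MP_f22ace_co.Iso

set_option autoImplicit false

namespace Pool.Agent.MP_f22ace_co

open Real

variable {α : Type} [DecidableEq α]

/-- Move across the direction `x`. -/
def flip (x : α) (A : Finset α) : Finset α := if x ∈ A then A.erase x else insert x A

lemma flip_flip (x : α) (A : Finset α) : flip x (flip x A) = A := by
  unfold flip
  by_cases h : x ∈ A
  · simp [h, Finset.insert_erase h]
  · simp [h, Finset.erase_insert h]

lemma mem_flip_self {x : α} {A : Finset α} : x ∈ flip x A ↔ x ∉ A := by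
  unfold flip
  by_cases h : x ∈ A <;> simp [h]

lemma flip_injective (x : α) : Function.Injective (flip x) := by
  intro A B h
  rw [← flip_flip x A, h, flip_flip]

lemma flip_left_injective {x y : α} {A : Finset α} (h : flip x A = flip y A) : x = y := by
  by_contra hne
  have h1 : x ∈ flip x A ↔ x ∉ A := mem_flip_self
  rw [h] at h1
  have h2 : x ∈ flip y A ↔ x ∈ A := by
    unfold flip
    split_ifs <;> simp [hne]
  rw [h2] at h1
  tauto

/-- The number of edges leaving the family. -/
def outer [Fintype α] (𝒜 : Finset (Finset α)) : ℕ :=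
  ∑ x : α, (𝒜.filter (fun A => flip x A ∉ 𝒜)).card

lemma outer_eq [Fintype α] (𝒜 : Finset (Finset α)) :
    Fintype.card α * 𝒜.card = 2 * internal Finset.univ 𝒜 + outer 𝒜 := by
  have h : ∀ x : α, 𝒜.card = 2 * (𝒜.filter (fun A => x ∉ A ∧ insert x A ∈ 𝒜)).card +
      (𝒜.filter (fun A => flip x A ∉ 𝒜)).card := by
    intro x
    have h1 := Finset.card_filter_add_card_filter_not (s := 𝒜) (fun A => flip x A ∈ 𝒜)
    have h2 := Finset.card_filter_add_card_filter_not
      (s := 𝒜.filter (fun A => flip x A ∈ 𝒜)) (fun A => x ∈ A)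
    have h3 : ((𝒜.filter (fun A => flip x A ∈ 𝒜)).filter (fun A => ¬ x ∈ A)) =
        𝒜.filter (fun A => x ∉ A ∧ insert x A ∈ 𝒜) := by
      ext A
      simp only [Finset.mem_filter]
      constructor
      · rintro ⟨⟨h1, h2⟩, h3⟩
        refine ⟨h1, h3, ?_⟩
        simpa [flip, h3] using h2
      · rintro ⟨h1, h2, h3⟩
        refine ⟨⟨h1, ?_⟩, h2⟩
        simpa [flip, h2] using h3
    have h4 : ((𝒜.filter (fun A => flip x A ∈ 𝒜)).filter (fun A => x ∈ A)).card =
        ((𝒜.filter (fun A => flip x A ∈ 𝒜)).filter (fun A => ¬ x ∈ A)).card := by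
      apply Finset.card_bij (fun A _ => flip x A)
      · intro A hA
        simp only [Finset.mem_filter] at hA ⊢
        refine ⟨⟨hA.1.2, ?_⟩, ?_⟩
        · rw [flip_flip]
          exact hA.1.1
        · rw [mem_flip_self]
          simpa using hA.2
      · intro A _ B _ h
        exact flip_injective x h
      · intro B hB
        simp only [Finset.mem_filter] at hB
        refine ⟨flip x B, ?_, flip_flip x B⟩
        simp only [Finset.mem_filter]
        refine ⟨⟨hB.1.2, ?_⟩, ?_⟩
        · rw [flip_flip]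
          exact hB.1.1
        · rw [mem_flip_self]
          exact hB.2
    rw [← h3]
    omega
  have h5 : ∑ x : α, 𝒜.card = ∑ x : α,
      (2 * (𝒜.filter (fun A => x ∉ A ∧ insert x A ∈ 𝒜)).card +
      (𝒜.filter (fun A => flip x A ∉ 𝒜)).card) := Finset.sum_congr rfl (fun x _ => h x)
  rw [Finset.sum_const, Finset.card_univ, smul_eq_mul, Finset.sum_add_distrib,
    ← Finset.mul_sum] at h5
  exact h5

lemma outer_ge [Fintype α] (𝒜 : Finset (Finset α)) :
    (𝒜.card : ℝ) * (Fintype.card α - logb 2 𝒜.card) ≤ outer 𝒜 := by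
  have h1 := outer_eq 𝒜
  have h2 := internal_le Finset.univ 𝒜
  have h3 : (Fintype.card α : ℝ) * 𝒜.card = 2 * internal Finset.univ 𝒜 + outer 𝒜 := by
    exact_mod_cast h1
  nlinarith

end Pool.Agent.MP_f22ace_co
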