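import Pool.Agent.Lib_MP_f22ace_co.Corner

set_option autoImplicit false

namespace Pool.Agent.MP_f22ace_co

open Set Pointwise

variable {k : ℕ}

open Classical in
/-- The polygons in the square that touch its left side. -/
noncomputable def left (k : ℕ) : Finset (LatticePolytope 2 k) :=
  Finset.univ.filter (fun P => ∃ p ∈ P.1, p 0 = 0)

lemma mem_left {P : LatticePolytope 2 k} : P ∈ left k ↔ ∃ p ∈ P.1, p 0 = 0 := by
  simp [left]

open Classical in
/-- The polygons that touch the left side of the square in a single point. -/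
noncomputable def left1 (k : ℕ) : Finset (LatticePolytope 2 k) :=
  Finset.univ.filter (fun P => ∃ x ∈ P.1, x 0 = 0 ∧ ∀ p ∈ P.1, p 0 = 0 → p = x)

lemma mem_left1 {P : LatticePolytope 2 k} :
    P ∈ left1 k ↔ ∃ x ∈ P.1, x 0 = 0 ∧ ∀ p ∈ P.1, p 0 = 0 → p = x := by
  simp [left1]

lemma nonneg_of_mem {P : LatticePolytope 2 k} {p : Fin 2 → ℝ} (hp : p ∈ P.1) (i : Fin 2) :
    0 ≤ p i := by simpa using (P.2.2 hp).1 i

lemma le_of_mem {P : LatticePolytope 2 k} {p : Fin 2 → ℝ} (hp : p ∈ P.1) (i : Fin 2) :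
    p i ≤ k := by simpa using (P.2.2 hp).2 i

/-- Structure of the edges between `left` and its complement. -/
lemma left_adj {P Q : LatticePolytope 2 k} (hP : P ∈ left k) (hQ : Q ∉ left k)
    (h : (Lam 2 k).Adj P Q) : ∃ x ∈ P.1, x 0 = 0 ∧ (∀ p ∈ P.1, p 0 = 0 → p = x) ∧
      vertexSet P.1 = insert x (vertexSet Q.1) ∧ x ∉ vertexSet Q.1 := by
  rw [mem_left] at hP hQ
  push Not at hQ
  obtain ⟨p, hp, hp0⟩ := hP
  obtain ⟨-, h | ⟨x, h1, h2⟩⟩ := h
  · exact absurd hp0 (hQ p (h.subset hp))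
  · have hQpos : ∀ q ∈ Q.1, 0 < q 0 := fun q hq =>
      lt_of_le_of_ne (nonneg_of_mem hq 0) (Ne.symm (hQ q hq))
    have hQne : Q.1.Nonempty := by
      by_contra hcon
      rw [not_nonempty_iff_eq_empty] at hcon
      have := Q.2.1.2.2
      rw [hcon, AffineSubspace.span_empty] at this
      exact AffineSubspace.bot_ne_top ℝ (Fin 2 → ℝ) (Fin 2 → ℝ) this
    have hxP : x ∈ P.1 := by
      rw [h1]
      exact subset_convexHull ℝ _ (mem_insert _ _)
    have key : ∀ r ∈ P.1, r 0 = 0 → r = x := by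
      intro r hr hr0
      rw [h1, convexHull_insert hQne, Q.2.1.1.convex.convexHull_eq, mem_convexJoin] at hr
      obtain ⟨y, hy, q, hq, hr⟩ := hr
      rw [mem_singleton_iff] at hy
      subst hy
      obtain ⟨a, b, ha, hb, hab, rfl⟩ := hr
      simp only [Pi.add_apply, Pi.smul_apply, smul_eq_mul] at hr0
      have hq0 := hQpos q hq
      have hx0 := nonneg_of_mem hxP 0
      have hb0 : b = 0 := by
        by_contra hbne
        have hbpos : 0 < b := lt_of_le_of_ne hb (Ne.symm hbne)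
        nlinarith [mul_nonneg ha hx0, mul_pos hbpos hq0]
      have ha1 : a = 1 := by linarith
      rw [hb0, ha1]
      simp
    have hx0 : x 0 = 0 := by rw [← key p hp hp0, hp0]
    exact ⟨x, hxP, hx0, key, h2, fun hh => hQ x (vertexSet_subset _ hh) hx0⟩

lemma cut_left_le (k : ℕ) : cutSize (Lam 2 k) (left k) ≤ (left1 k).card := by
  classical
  unfold cutSize
  apply Finset.card_le_card_of_injOn Prod.fst
  · rintro ⟨P, Q⟩ h
    simp only [Finset.mem_coe, SimpleGraph.mk_mem_interedges_iff, Finset.mem_compl] at h ⊢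
    obtain ⟨x, hx, hx0, hx1, -⟩ := left_adj h.1 h.2.1 h.2.2
    exact mem_left1.2 ⟨x, hx, hx0, hx1⟩
  · rintro ⟨P, Q⟩ h ⟨P', Q'⟩ h' heq
    simp only [Finset.mem_coe, SimpleGraph.mk_mem_interedges_iff, Finset.mem_compl] at h h' heq
    subst heq
    obtain ⟨x, hx, hx0, hx1, hx2, hx3⟩ := left_adj h.1 h.2.1 h.2.2
    obtain ⟨x', hx', hx0', hx1', hx2', hx3'⟩ := left_adj h'.1 h'.2.1 h'.2.2
    have hxx : x' = x := hx1 x' hx' hx0'
    subst hxx
    have : Q = Q' := by
      apply Subtype.ext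
      apply IsPolytope.ext Q.2.1.1 Q'.2.1.1
      have e3 : insert x' (vertexSet Q.1) \ {x'} =
        insert x' (vertexSet Q'.1) \ {x'} := by rw [← hx2, ← hx2']
      rwa [insert_sdiff_self_of_notMem hx3, insert_sdiff_self_of_notMem hx3'] at e3
    rw [this]

/-- The upward unit vector. -/
def up : Fin 2 → ℝ := ![0, 1]

/-- `P + [0, j] e₂`. -/
def stretch (P : Set (Fin 2 → ℝ)) (j : ℕ) : Set (Fin 2 → ℝ) :=
  P + segment ℝ 0 ((j : ℝ) • up)

lemma mem_stretch {P : Set (Fin 2 → ℝ)} {j : ℕ} {q : Fin 2 → ℝ} :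
    q ∈ stretch P j ↔ ∃ p ∈ P, ∃ s : ℝ, 0 ≤ s ∧ s ≤ j ∧ q = p + s • up := by
  unfold stretch
  rw [Set.mem_add]
  constructor
  · rintro ⟨p, hp, r, hr, rfl⟩
    rw [segment_eq_image] at hr
    obtain ⟨θ, hθ, rfl⟩ := hr
    refine ⟨p, hp, θ * j, mul_nonneg hθ.1 (Nat.cast_nonneg _), ?_, ?_⟩
    · have : (0 : ℝ) ≤ j := Nat.cast_nonneg _
      nlinarith [hθ.2]
    · simp [mul_smul]
  · rintro ⟨p, hp, s, hs0, hs1, rfl⟩
    refine ⟨p, hp, s • up, ?_, rfl⟩
    rw [segment_eq_image]
    rcases Nat.eq_zero_or_pos j with hj | hj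
    · subst hj
      have : s = 0 := le_antisymm (by simpa using hs1) hs0
      subst this
      exact ⟨0, by simp, by simp⟩
    · have hj' : (0 : ℝ) < j := by exact_mod_cast hj
      refine ⟨s / j, ⟨div_nonneg hs0 hj'.le, (div_le_one hj').2 hs1⟩, ?_⟩
      simp only [smul_zero, zero_add, smul_smul]
      rw [div_mul_cancel₀ _ hj'.ne']

lemma subset_stretch (P : Set (Fin 2 → ℝ)) (j : ℕ) : P ⊆ stretch P j := by
  intro p hp
  rw [mem_stretch]
  exact ⟨p, hp, 0, le_refl _, Nat.cast_nonneg _, by simp⟩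

lemma isLatticePolytope_stretch {P : Set (Fin 2 → ℝ)} (hP : IsLatticePolytope P) (j : ℕ) :
    IsLatticePolytope (stretch P j) := by
  have h1 : stretch P j = convexHull ℝ (vertexSet P + {0, (j : ℝ) • up}) := by
    rw [convexHull_add, hP.1.convexHull_vertexSet, convexHull_pair]
    rfl
  refine ⟨?_, ?_, ?_⟩
  · rw [h1]
    exact isPolytope_convexHull (hP.1.finite_vertexSet.add (by simp))
  · intro v hv
    rw [h1] at hv
    obtain ⟨p, hp, r, hr, rfl⟩ := Set.mem_add.1 (vertexSet_convexHull_subset _ hv)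
    intro i
    obtain ⟨z, hz⟩ := hP.2.1 p hp i
    rcases hr with rfl | hr
    · exact ⟨z, by simpa using hz⟩
    · rw [mem_singleton_iff] at hr
      subst hr
      fin_cases i
      · exact ⟨z, by simpa [up] using hz⟩
      · refine ⟨z + j, ?_⟩
        simp only [Fin.mk_one, Pi.add_apply, up, Pi.smul_apply, smul_eq_mul]
        simp only [Fin.mk_one] at hz
        rw [hz]
        simp
  · rw [eq_top_iff, ← hP.2.2]
    exact affineSpan_mono _ (subset_stretch P j)

lemma stretch_cancel {P Q : Set (Fin 2 → ℝ)} (hQ : Convex ℝ Q) {j : ℕ}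
    (h : stretch P j ⊆ stretch Q j) : P ⊆ Q := by
  intro p hp
  have h1 : p ∈ stretch Q j := h (subset_stretch P j hp)
  have h2 : p + (j : ℝ) • up ∈ stretch Q j := h (by
    rw [mem_stretch]
    exact ⟨p, hp, j, Nat.cast_nonneg _, le_refl _, rfl⟩)
  rw [mem_stretch] at h1 h2
  obtain ⟨q, hq, s, hs0, hs1, e1⟩ := h1
  obtain ⟨q', hq', s', hs0', hs1', e2⟩ := h2
  -- `q = p - s e₂`, `q' = p + (j - s') e₂`
  rcases eq_or_lt_of_le hs0 with hs | hs
  · rw [← hs] at e1
    simp only [zero_smul, add_zero] at e1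
    rwa [e1]
  · have hden : 0 < s + (j - s') := by linarith
    have hqe : q = p - s • up := by rw [e1]; simp
    have hqe' : q' = p + (j - s') • up := by
      have : q' = p + (j : ℝ) • up - s' • up := by rw [e2]; simp
      rw [this, sub_smul]
      abel
    have := hQ hq hq' (a := (j - s') / (s + (j - s'))) (b := s / (s + (j - s')))
      (div_nonneg (by linarith) hden.le) (div_nonneg hs.le hden.le) (by
        rw [← add_div, add_comm, div_self hden.ne'])
    convert this using 1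
    rw [hqe, hqe']
    ext i
    simp only [Pi.add_apply, Pi.smul_apply, Pi.sub_apply, smul_eq_mul]
    field_simp
    ring

end Pool.Agent.MP_f22ace_co
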