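import Pool.Agent.Lib_MP_f22ace_co.CubeFamily

set_option autoImplicit false

namespace Pool.Agent.MP_f22ace_co

open Set

variable {d k t : ℕ}

lemma pow_le_of_moment (h : t ^ d ≤ k) (i : Fin (t + 1)) (j : Fin d) :
    (i : ℕ) ^ ((j : ℕ) + 1) < k + 1 := by
  rw [Nat.lt_succ_iff]
  refine le_trans ?_ h
  rcases Nat.eq_zero_or_pos (i : ℕ) with h0 | h0
  · rw [h0]
    simp
  · calc (i : ℕ) ^ ((j : ℕ) + 1) ≤ (i : ℕ) ^ d := Nat.pow_le_pow_right h0 j.2
      _ ≤ t ^ d := Nat.pow_le_pow_left (Nat.lt_succ_iff.mp i.2) d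

/-- Points on the moment curve. -/
def mPt (h : t ^ d ≤ k) (i : Fin (t + 1)) : Fin d → Fin (k + 1) :=
  fun j => ⟨(i : ℕ) ^ ((j : ℕ) + 1), pow_le_of_moment h i j⟩

lemma latPt_mPt (h : t ^ d ≤ k) (i : Fin (t + 1)) (j : Fin d) :
    latPt d k (mPt h i) j = ((i : ℕ) : ℝ) ^ ((j : ℕ) + 1) := by
  simp [latPt, mPt]

lemma mPt_injective (hd : 2 ≤ d) (h : t ^ d ≤ k) : Function.Injective (mPt (d := d) h) := by
  intro i j hij
  have h1 := congrFun hij ⟨0, by omega⟩
  simp only [mPt, Fin.mk.injEq, zero_add, pow_one] at h1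
  exact Fin.ext h1

open Classical in
lemma moment_independent (hd : 2 ≤ d) (h : t ^ d ≤ k) (z : Fin d → Fin (k + 1))
    (hz : z ∈ Finset.univ.image (mPt (d := d) h)) : ∃ f : (Fin d → ℝ) →ₗ[ℝ] ℝ,
      ∀ w ∈ Finset.univ.image (mPt (d := d) h), w ≠ z →
      f (latPt d k z) < f (latPt d k w) := by
  simp only [Finset.mem_image, Finset.mem_univ, true_and] at hz
  obtain ⟨i, rfl⟩ := hz
  refine ⟨LinearMap.proj ⟨1, by omega⟩ - (2 * ((i : ℕ) : ℝ)) • LinearMap.proj ⟨0, by omega⟩, ?_⟩
  intro w hw hwne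
  simp only [Finset.mem_image, Finset.mem_univ, true_and] at hw
  obtain ⟨s, rfl⟩ := hw
  simp only [LinearMap.sub_apply, LinearMap.smul_apply, LinearMap.proj_apply, latPt_mPt,
    smul_eq_mul, zero_add, pow_one]
  have hne : ((s : ℕ) : ℝ) ≠ ((i : ℕ) : ℝ) := by
    intro hh
    apply hwne
    congr 1
    exact Fin.ext (by exact_mod_cast hh)
  have := sq_pos_of_pos (abs_pos.2 (sub_ne_zero.2 hne))
  rw [sq_abs] at this
  rw [show (1 + 1 : ℕ) = 2 from rfl]
  nlinarith

lemma moment_affineIndependent (h : t ^ d ≤ k) (q : Fin (d + 1) → Fin (t + 1))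
    (hq : Function.Injective q) :
    AffineIndependent ℝ (fun i => latPt d k (mPt (d := d) h (q i))) := by
  rw [affineIndependent_iff_of_fintype]
  intro w hw hw2
  rw [Finset.weightedVSub_eq_linear_combination _ hw] at hw2
  have key : w = 0 := by
    apply Matrix.eq_zero_of_forall_pow_sum_mul_pow_eq_zero
      (f := fun i => (((q i : Fin (t + 1)) : ℕ) : ℝ))
    · intro i j hij
      apply hq
      apply Fin.ext
      simpa using hij
    · intro j
      refine Fin.cases ?_ (fun j => ?_) j
      · simpa using hw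
      · have := congrFun hw2 j
        simp only [Finset.sum_apply, Pi.smul_apply, smul_eq_mul, latPt_mPt, Pi.zero_apply] at this
        simpa using this
  intro i
  rw [key]
  rfl

open Classical in
lemma moment_corner (hd : 2 ≤ d) (h : t ^ d ≤ k) (ht : d ≤ t) :
    2 ^ (t - d) ≤ (corner d k).card := by
  let q : Fin (d + 1) → Fin (t + 1) := fun i => ⟨i, by omega⟩
  have hq : Function.Injective q := by
    intro i j hij
    simp only [q, Fin.mk.injEq] at hij
    exact Fin.ext hij
  obtain ⟨h1, h2⟩ := span_of_affineIndependent (fun i => mPt (d := d) h (q i)) (by simp)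
    (moment_affineIndependent h q hq)
  have h3 := corner_card_ge (Finset.univ.image (mPt (d := d) h))
    (Finset.univ.image (fun i => mPt (d := d) h (q i))) (by
    intro z hz
    simp only [Finset.mem_image, Finset.mem_univ, true_and] at hz ⊢
    obtain ⟨o, rfl⟩ := hz
    exact ⟨_, rfl⟩) (moment_independent hd h) h1 (by
    simp only [Finset.mem_image, Finset.mem_univ, true_and]
    refine ⟨0, ?_⟩
    funext i
    simp [q, mPt, zeroPt])
  rw [h2, Finset.card_image_of_injective _ (mPt_injective hd h), Finset.card_univ,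
    Fintype.card_fin] at h3
  refine le_trans (Nat.pow_le_pow_right (by norm_num) ?_) h3
  omega

open Classical in
lemma moment_corner_compl (hd : 2 ≤ d) (h : t ^ d ≤ k) (ht : d + 1 ≤ t) :
    2 ^ (t - (d + 1)) ≤ ((corner d k)ᶜ).card := by
  let q : Fin (d + 1) → Fin (t + 1) := fun i => ⟨i + 1, by omega⟩
  have hq : Function.Injective q := by
    intro i j hij
    simp only [q, Fin.mk.injEq] at hij
    exact Fin.ext (by omega)
  have hz0 : ∀ i : Fin (t + 1), mPt (d := d) h i = zeroPt d k → (i : ℕ) = 0 := by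
    intro i hi
    have := congrFun hi ⟨0, by omega⟩
    simp only [mPt, zeroPt, zero_add, pow_one] at this
    simpa using congrArg Fin.val this
  obtain ⟨h1, h2⟩ := span_of_affineIndependent (fun i => mPt (d := d) h (q i)) (by simp)
    (moment_affineIndependent h q hq)
  have h3 := corner_compl_card_ge ((Finset.univ.image (mPt (d := d) h)).erase (zeroPt d k))
    (Finset.univ.image (fun i => mPt (d := d) h (q i))) (by
    intro z hz
    simp only [Finset.mem_image, Finset.mem_univ, true_and, Finset.mem_erase] at hz ⊢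
    obtain ⟨o, rfl⟩ := hz
    refine ⟨?_, _, rfl⟩
    intro hh
    have := hz0 _ hh
    simp [q] at this) (by
    intro z hz
    obtain ⟨f, hf⟩ := moment_independent hd h z (Finset.mem_of_mem_erase hz)
    exact ⟨f, fun w hw => hf w (Finset.mem_of_mem_erase hw)⟩) h1 (by simp)
  have h4 : zeroPt d k ∈ Finset.univ.image (mPt (d := d) h) := by
    simp only [Finset.mem_image, Finset.mem_univ, true_and]
    refine ⟨0, ?_⟩
    funext i
    simp [mPt, zeroPt]
  rw [h2, Finset.card_erase_of_mem h4, Finset.card_image_of_injective _ (mPt_injective hd h),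
    Finset.card_univ, Fintype.card_fin] at h3
  refine le_trans (Nat.pow_le_pow_right (by norm_num) ?_) h3
  omega

end Pool.Agent.MP_f22ace_co
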